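import Pool.Agent.Helper65.TD.Defs

/-!
# TD DD : divided differences and limits of determinants

PROOFS. `dd_alg`: for a polynomial `P` of degree `< card S` the Lagrange interpolation is exact;
compare the coefficients of `X^(card S - 1)`.
`dd_limit`: row operations by the lower triangular matrix of the divided differences.
-/

set_option autoImplicit false

open Topology Filter Asymptotics

namespace TD

theorem dd_alg {ι : Type*} [DecidableEq ι] (S : Finset ι) (x : ι → ℝ) (hx : Set.InjOn x S) (l : ℕ)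
    (hl : l + 1 ≤ S.card) :
    ∑ s ∈ S, x s ^ l * (∏ t ∈ S.erase s, (x s - x t))⁻¹ = if l + 1 = S.card then 1 else 0 := by
  have h := Lagrange.coeff_eq_sum (F := ℝ) (s := S) (v := x) hx (P := Polynomial.X ^ l)
    (by rw [Polynomial.degree_X_pow]; exact_mod_cast hl)
  simp only [Polynomial.eval_pow, Polynomial.eval_X, div_eq_mul_inv, Polynomial.coeff_X_pow] at h
  rw [← h]
  refine if_congr ?_ rfl rfl
  omega

theorem row_limit {ι E : Type*} [DecidableEq ι] [NormedAddCommGroup E] [NormedSpace ℝ E]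
    (S : Finset ι) (x : ι → ℝ) (hx : Set.InjOn x S) (hS : S.Nonempty) {N : ℕ} (hN : S.card ≤ N)
    (v : ℕ → E) (g : ℝ → E)
    (hg : (fun h => g h - ∑ l ∈ Finset.range N, h ^ l • v l) =o[𝓝 0] fun h => h ^ (N - 1)) :
    Tendsto (fun h => (h ^ (S.card - 1))⁻¹ •
      ∑ s ∈ S, (∏ t ∈ S.erase s, (x s - x t))⁻¹ • g (x s * h)) (𝓝[>] 0)
      (𝓝 (v (S.card - 1))) := by
  have hc : 0 < S.card := hS.card_pos
  set C := S.card - 1 with hC
  set w : ι → ℝ := fun s => (∏ t ∈ S.erase s, (x s - x t))⁻¹ with hw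
  set e : ℝ → E := fun h => g h - ∑ l ∈ Finset.range N, h ^ l • v l with he
  have h0 : Tendsto (fun h : ℝ => h) (𝓝[>] (0 : ℝ)) (𝓝 0) := nhdsWithin_le_nhds
  -- the error term
  have h1 : ∀ s ∈ S, Tendsto (fun h => w s • (h ^ C)⁻¹ • e (x s * h)) (𝓝[>] (0 : ℝ)) (𝓝 0) := by
    intro s hs
    have ht : Tendsto (fun h : ℝ => x s * h) (𝓝[>] (0 : ℝ)) (𝓝 0) := by
      simpa using h0.const_mul (x s)
    have h2 : (fun h => e (x s * h)) =o[𝓝[>] (0 : ℝ)] fun h => (x s * h) ^ (N - 1) :=
      hg.comp_tendsto ht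
    have h3 : (fun h : ℝ => (x s * h) ^ (N - 1)) =O[𝓝[>] (0 : ℝ)] fun h => h ^ C := by
      have h4 : (fun h : ℝ => (x s * h) ^ (N - 1)) = fun h => (x s ^ (N - 1) * h ^ (N - 1 - C)) * h ^ C := by
        funext h
        rw [mul_pow, mul_assoc, ← pow_add]
        congr 2
        omega
      rw [h4]
      have h5 : (fun h : ℝ => x s ^ (N - 1) * h ^ (N - 1 - C)) =O[𝓝[>] (0 : ℝ)] fun _ => (1 : ℝ) := by
        refine Tendsto.isBigO_one ℝ (c := x s ^ (N - 1) * 0 ^ (N - 1 - C)) ?_
        exact (h0.pow _).const_mul _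
      simpa using h5.mul (isBigO_refl (fun h : ℝ => h ^ C) (𝓝[>] (0 : ℝ)))
    have h6 := (h2.trans_isBigO h3).tendsto_inv_smul_nhds_zero
    simpa using h6.const_smul (w s)
  -- the main terms
  have h2 : ∀ l ∈ Finset.range N, Tendsto (fun h : ℝ => ((h ^ C)⁻¹ * h ^ l *
      ∑ s ∈ S, x s ^ l * w s) • v l) (𝓝[>] (0 : ℝ)) (𝓝 (if l = C then v l else 0)) := by
    intro l _
    rcases lt_trichotomy l C with hl | hl | hl
    · have h3 := dd_alg S x hx l (by omega)
      rw [if_neg (by omega)] at h3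
      rw [if_neg hl.ne]
      simp only [hw, h3, mul_zero, zero_smul]
      exact tendsto_const_nhds
    · have h3 := dd_alg S x hx l (by omega)
      rw [if_pos (by omega)] at h3
      rw [if_pos hl]
      refine (tendsto_const_nhds (x := v l)).congr' ?_
      filter_upwards [self_mem_nhdsWithin] with h hh
      have hh' : h ≠ 0 := (Set.mem_Ioi.1 hh).ne'
      simp only [hw, h3, mul_one]
      rw [hl, inv_mul_cancel₀ (pow_ne_zero _ hh'), one_smul]
    · rw [if_neg hl.ne']
      have h4 : Tendsto (fun h : ℝ => (h ^ (l - C) * ∑ s ∈ S, x s ^ l * w s) • v l) (𝓝[>] (0 : ℝ))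
          (𝓝 (((0 : ℝ) ^ (l - C) * ∑ s ∈ S, x s ^ l * w s) • v l)) :=
        ((h0.pow _).mul_const _).smul_const _
      rw [zero_pow (by omega), zero_mul, zero_smul] at h4
      refine h4.congr' ?_
      filter_upwards [self_mem_nhdsWithin] with h hh
      have hh' : h ≠ 0 := (Set.mem_Ioi.1 hh).ne'
      congr 2
      rw [eq_comm, inv_mul_eq_iff_eq_mul₀ (pow_ne_zero _ hh'), ← pow_add]
      congr 1
      omega
  have h3 := (tendsto_finsetSum _ h2).add (tendsto_finsetSum _ h1)
  rw [Finset.sum_ite_eq' (Finset.range N) C v, if_pos (Finset.mem_range.2 (by omega)),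
    Finset.sum_const_zero, add_zero] at h3
  refine h3.congr fun h => ?_
  have h4 : ∀ s, g (x s * h) = (∑ l ∈ Finset.range N, (x s * h) ^ l • v l) + e (x s * h) := by
    intro s
    rw [he]
    exact (add_sub_cancel _ _).symm
  calc _ = (∑ l ∈ Finset.range N, ∑ s ∈ S, ((h ^ C)⁻¹ * (w s * (x s * h) ^ l)) • v l) +
        ∑ s ∈ S, w s • (h ^ C)⁻¹ • e (x s * h) := by
        congr 1
        refine Finset.sum_congr rfl fun l _ => ?_
        rw [← Finset.sum_smul]
        congr 1
        rw [Finset.mul_sum]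
        refine Finset.sum_congr rfl fun s _ => ?_
        rw [mul_pow]
        ring
    _ = _ := by
        rw [Finset.sum_comm, ← Finset.sum_add_distrib, Finset.smul_sum]
        refine Finset.sum_congr rfl fun s _ => ?_
        rw [h4, smul_add, smul_add, Finset.smul_sum, Finset.smul_sum, smul_comm (w s)]
        congr 1
        refine Finset.sum_congr rfl fun l _ => ?_
        rw [smul_smul, smul_smul, mul_assoc]

theorem dd_limit {m : ℕ} {grp k : Fin m → ℕ}
    (hk : ∀ r s, r < s → grp r = grp s → k r < k s) :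
    ∃ D : ℝ → ℝ, (∀ h, 0 < h → 0 < D h) ∧
      ∀ (N : ℕ → ℕ) (v : ℕ → ℕ → Fin m → ℝ) (g : ℕ → ℝ → Fin m → ℝ),
        (∀ r, rho grp r < N (grp r)) →
        (∀ r, (fun h => g (grp r) h - ∑ l ∈ Finset.range (N (grp r)), h ^ l • v (grp r) l) =o[𝓝 0]
          fun h => h ^ (N (grp r) - 1)) →
        Tendsto (fun h => (D h)⁻¹ * Matrix.det (fun r => g (grp r) (k r * h))) (𝓝[>] 0)
          (𝓝 (Matrix.det fun r => v (grp r) (rho grp r))) := by
  classical
  set S : Fin m → Finset (Fin m) := fun r => Finset.univ.filter fun s => s ≤ r ∧ grp s = grp r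
    with hSdef
  have hmem : ∀ {r s}, s ∈ S r ↔ s ≤ r ∧ grp s = grp r := by
    intro r s
    simp [hSdef]
  have hrr : ∀ r, r ∈ S r := fun r => hmem.2 ⟨le_rfl, rfl⟩
  have her : ∀ r, (S r).erase r = Finset.univ.filter fun s => s < r ∧ grp s = grp r := by
    intro r
    ext s
    rw [Finset.mem_erase, hmem, Finset.mem_filter]
    constructor
    · rintro ⟨h1, h2, h3⟩
      exact ⟨Finset.mem_univ _, lt_of_le_of_ne h2 h1, h3⟩
    · rintro ⟨_, h2, h3⟩
      exact ⟨h2.ne, h2.le, h3⟩
  have hcard : ∀ r, (S r).card = rho grp r + 1 := by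
    intro r
    have h1 := Finset.card_erase_add_one (hrr r)
    rw [her r] at h1
    exact h1.symm
  have hinj : ∀ r, Set.InjOn (fun s : Fin m => (k s : ℝ)) (S r) := by
    intro r s hs t ht hst
    have hs' := hmem.1 (Finset.mem_coe.1 hs)
    have ht' := hmem.1 (Finset.mem_coe.1 ht)
    have hst' : k s = k t := Nat.cast_injective (R := ℝ) hst
    rcases lt_trichotomy s t with h | h | h
    · exact absurd hst' (hk s t h (hs'.2.trans ht'.2.symm)).ne
    · exact h
    · exact absurd hst' (hk t s h (ht'.2.trans hs'.2.symm)).ne'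
  set c : Fin m → Fin m → ℝ := fun r s => if s ∈ S r then
    (∏ t ∈ (S r).erase s, ((k s : ℝ) - k t))⁻¹ else 0 with hcdef
  have hcpos : ∀ r, 0 < c r r := by
    intro r
    simp only [hcdef, if_pos (hrr r)]
    refine inv_pos.2 (Finset.prod_pos fun t ht => ?_)
    rw [her r, Finset.mem_filter] at ht
    have h1 := hk t r ht.2.1 ht.2.2
    have h2 : (k t : ℝ) < k r := by exact_mod_cast h1
    linarith
  refine ⟨fun h => ∏ r, (h ^ rho grp r * (c r r)⁻¹), fun h hh => ?_, fun N v g hN hg => ?_⟩
  · exact Finset.prod_pos fun r _ => mul_pos (pow_pos hh _) (inv_pos.2 (hcpos r))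
  · let Lam : ℝ → Matrix (Fin m) (Fin m) ℝ := fun h => Matrix.of fun r s => (h ^ rho grp r)⁻¹ * c r s
    have hdet : ∀ h, (Lam h).det = (∏ r, (h ^ rho grp r * (c r r)⁻¹))⁻¹ := by
      intro h
      rw [Matrix.det_of_isLowerTriangular, ← Finset.prod_inv_distrib]
      · refine Finset.prod_congr rfl fun r _ => ?_
        simp only [Lam, Matrix.of_apply, mul_inv, inv_inv]
      · intro r s hrs
        have hrs' : r < s := by simpa using hrs
        have : c r s = 0 := by
          simp only [hcdef]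
          rw [if_neg]
          intro hh
          exact absurd (hmem.1 hh).1 (not_le.2 hrs')
        simp only [Lam, Matrix.of_apply, this, mul_zero]
    have hlim : Tendsto (fun h => Lam h * (Matrix.of fun r => g (grp r) (k r * h))) (𝓝[>] 0)
        (𝓝 (Matrix.of fun r => v (grp r) (rho grp r))) := by
      refine tendsto_pi_nhds.2 fun r => ?_
      have h1 := row_limit (S r) (fun s : Fin m => (k s : ℝ)) (hinj r) ⟨r, hrr r⟩
        (N := N (grp r)) (by rw [hcard]; exact hN r) (v (grp r)) (g (grp r)) (hg r)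
      have h2 : (S r).card - 1 = rho grp r := by rw [hcard]; rfl
      rw [h2] at h1
      refine h1.congr fun h => ?_
      funext i
      simp only [Matrix.mul_apply, Lam, Matrix.of_apply, Pi.smul_apply, Finset.sum_apply,
        smul_eq_mul, Finset.mul_sum]
      rw [← Finset.sum_subset (Finset.subset_univ (S r))]
      · refine Finset.sum_congr rfl fun s hs => ?_
        simp only [hcdef, if_pos hs, (hmem.1 hs).2]
        ring
      · intro s _ hs
        simp only [hcdef, if_neg hs]
        ring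
    have h3 := ((Continuous.matrix_det continuous_id).tendsto
      (Matrix.of fun r => v (grp r) (rho grp r))).comp hlim
    refine h3.congr fun h => ?_
    simp only [Function.comp, id]
    rw [Matrix.det_mul, hdet]
    rfl

end TD
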