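import Pool.Agent.Helper65.TD.HM
import Pool.Agent.Helper65.TD.DD

/-!
# TD CS : signs of confluent minors, total positivity of Taylor columns

PROOFS. `conf_sign`: (1) for small `h > 0` the parameters `y (grp r) + rho grp r * h` are strictly
increasing in `r` (`grp` is monotone, `y` is increasing, `rho` increases by one inside a group), so
`0 < ε det (γ (..))`.  `dd_limit` with `k = rho grp`, `g i h = γ (y i + h)`, `v i l = v (y i) l`,
`N i = Nm (y i)` (the Peano expansion at `y i`, translated): the limit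
`ε det (v (y (grp r)) (rho grp r))` is `≥ 0`.  (2) It is not `0`: otherwise there is `φ ≠ 0` with
`φ ⬝ᵥ v (y (grp r)) (rho grp r) = 0` for all `r`.  Let `Z` be the set of the `y (grp r)` and
`μ (y i)` the number of `r` with `grp r = i`; inside a group `rho` takes all values
`0, ..., μ - 1`, so `φ = 0` by `herm_gen` (`μ ≤ Nm` by `hr` applied to the last element of the
group).
`taylor_tp`: `dd_limit` for `g i x = Σ_(l < Nm (y i)) x^l • v (y i) l` (the expansion is exact):
`rho grp r ≤ k r < Nm (y (grp r))`; the limit of `(D h)⁻¹ ε det` is `> 0` by `conf_sign`.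
-/

set_option autoImplicit false

open Topology Filter

namespace TD

theorem cs_rho_lt {m : ℕ} (grp : Fin m → ℕ) {r s : Fin m} (hrs : r < s) (h : grp r = grp s) :
    rho grp r < rho grp s := by
  unfold rho
  apply Finset.card_lt_card
  rw [Finset.ssubset_iff_of_subset]
  · refine ⟨r, ?_, ?_⟩
    · simp [hrs, h]
    · simp
  · intro x hx
    simp only [Finset.mem_filter, Finset.mem_univ, true_and] at hx ⊢
    exact ⟨hx.1.trans hrs, hx.2.trans h⟩

theorem cs_rho_le {m : ℕ} {grp k : Fin m → ℕ}
    (hk : ∀ r s, r < s → grp r = grp s → k r < k s) (r : Fin m) : rho grp r ≤ k r := by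
  unfold rho
  have h1 : ((Finset.univ.filter fun s => s < r ∧ grp s = grp r).image k) ⊆
      Finset.range (k r) := by
    intro x hx
    simp only [Finset.mem_image, Finset.mem_filter, Finset.mem_univ, true_and] at hx
    obtain ⟨s, ⟨h1, h2⟩, rfl⟩ := hx
    exact Finset.mem_range.2 (hk s r h1 h2)
  have h2 : ((Finset.univ.filter fun s => s < r ∧ grp s = grp r).image k).card =
      (Finset.univ.filter fun s => s < r ∧ grp s = grp r).card := by
    apply Finset.card_image_of_injOn
    intro a ha b hb hab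
    simp only [Finset.coe_filter, Finset.mem_univ, true_and, Set.mem_setOf_eq] at ha hb
    rcases lt_trichotomy a b with h | h | h
    · exact absurd hab (hk a b h (ha.2.trans hb.2.symm)).ne
    · exact h
    · exact absurd hab (hk b a h (hb.2.trans ha.2.symm)).ne'
  rw [← h2]
  exact (Finset.card_le_card h1).trans (by rw [Finset.card_range])

/-- inside a group `rho` takes exactly the values `0, ..., μ - 1`. -/
theorem cs_image {m : ℕ} (grp : Fin m → ℕ) (i : ℕ) :
    (Finset.univ.filter fun r => grp r = i).image (rho grp) =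
      Finset.range (Finset.univ.filter fun r => grp r = i).card := by
  apply Finset.eq_of_subset_of_card_le
  · intro x hx
    simp only [Finset.mem_image, Finset.mem_filter, Finset.mem_univ, true_and] at hx
    obtain ⟨r, hr, rfl⟩ := hx
    rw [Finset.mem_range]
    unfold rho
    apply Finset.card_lt_card
    rw [Finset.ssubset_iff_of_subset]
    · exact ⟨r, by simp [hr], by simp⟩
    · intro s hs
      simp only [Finset.mem_filter, Finset.mem_univ, true_and] at hs ⊢
      exact hs.2.trans hr
  · rw [Finset.card_range, Finset.card_image_of_injOn]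
    intro a ha b hb hab
    simp only [Finset.coe_filter, Finset.mem_univ, true_and, Set.mem_setOf_eq] at ha hb
    rcases lt_trichotomy a b with h | h | h
    · exact absurd hab (cs_rho_lt grp h (ha.trans hb.symm)).ne
    · exact h
    · exact absurd hab (cs_rho_lt grp h (hb.trans ha.symm)).ne'

theorem cs_ne {m : ℕ} {γ : ℝ → Fin m → ℝ} (hγ : TR.ConvexCurve m γ) {Nm : ℝ → ℕ}
    {v : ℝ → ℕ → Fin m → ℝ} (hJ : Jet m γ Nm v)
    {y : ℕ → ℝ} (hy : StrictMono y) {grp : Fin m → ℕ}
    (hr : ∀ r, rho grp r < Nm (y (grp r))) :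
    Matrix.det (fun r => v (y (grp r)) (rho grp r)) ≠ 0 := by
  intro hdet
  obtain ⟨φ, hφ, hφ0⟩ := Matrix.exists_mulVec_eq_zero_iff.2 hdet
  apply hφ
  classical
  have hrow : ∀ r, φ ⬝ᵥ v (y (grp r)) (rho grp r) = 0 := by
    intro r
    have h := congrFun hφ0 r
    rw [dotProduct_comm]
    exact h
  have hgz : ∀ r0 : Fin m, (Finset.univ.filter fun r => y (grp r) = y (grp r0)) =
      Finset.univ.filter fun r => grp r = grp r0 := by
    intro r0
    ext r
    simp only [Finset.mem_filter, Finset.mem_univ, true_and]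
    exact hy.injective.eq_iff
  have hex : ∀ r0 : Fin m, ∀ l < (Finset.univ.filter fun r => y (grp r) = y (grp r0)).card,
      ∃ r, grp r = grp r0 ∧ rho grp r = l := by
    intro r0 l hl
    rw [hgz] at hl
    have h1 := Finset.mem_range.2 hl
    rw [← cs_image] at h1
    simp only [Finset.mem_image, Finset.mem_filter, Finset.mem_univ, true_and] at h1
    exact h1
  refine herm_gen hγ hJ (Finset.univ.image fun r => y (grp r))
    (fun z => (Finset.univ.filter fun r => y (grp r) = z).card) ?_ ?_ ?_ φ ?_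
  · intro z hz
    simp only [Finset.mem_image, Finset.mem_univ, true_and] at hz
    obtain ⟨r, rfl⟩ := hz
    exact Finset.card_pos.2 ⟨r, by simp⟩
  · intro z hz
    simp only [Finset.mem_image, Finset.mem_univ, true_and] at hz
    obtain ⟨r0, rfl⟩ := hz
    have hpos : 0 < (Finset.univ.filter fun r => y (grp r) = y (grp r0)).card :=
      Finset.card_pos.2 ⟨r0, by simp⟩
    obtain ⟨r, h1, h2⟩ := hex r0 ((Finset.univ.filter fun r => y (grp r) = y (grp r0)).card - 1)
      (by omega)
    have h3 := hr r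
    rw [h1, h2] at h3
    omega
  · have h := Finset.card_eq_sum_card_image (fun r : Fin m => y (grp r)) Finset.univ
    rw [Finset.card_univ, Fintype.card_fin] at h
    exact h.symm
  · intro z hz l hl
    simp only [Finset.mem_image, Finset.mem_univ, true_and] at hz
    obtain ⟨r0, rfl⟩ := hz
    obtain ⟨r, h1, h2⟩ := hex r0 l hl
    have := hrow r
    rw [h1, h2] at this
    exact this

theorem conf_sign {m : ℕ} {γ : ℝ → Fin m → ℝ} (hγ : TR.ConvexCurve m γ) {Nm : ℝ → ℕ}
    {v : ℝ → ℕ → Fin m → ℝ} (hJ : Jet m γ Nm v) {ε : ℝ} (hε : ε = 1 ∨ ε = -1)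
    (hpos : ∀ t : Fin m → ℝ, StrictMono t → 0 < ε * Matrix.det (fun i => γ (t i)))
    {y : ℕ → ℝ} (hy : StrictMono y) {grp : Fin m → ℕ} (hg : Monotone grp)
    (hr : ∀ r, rho grp r < Nm (y (grp r))) :
    0 < ε * Matrix.det (fun r => v (y (grp r)) (rho grp r)) := by
  have hε0 : ε ≠ 0 := by rcases hε with h | h <;> simp [h]
  have hne : ε * Matrix.det (fun r => v (y (grp r)) (rho grp r)) ≠ 0 :=
    mul_ne_zero hε0 (cs_ne hγ hJ hy hr)
  refine lt_of_le_of_ne ?_ hne.symm
  obtain ⟨D, hD, hlim⟩ := dd_limit (grp := grp) (k := rho grp)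
    (fun r s h1 h2 => cs_rho_lt grp h1 h2)
  have hexp : ∀ r, (fun h => γ (y (grp r) + h) -
      ∑ l ∈ Finset.range (Nm (y (grp r))), h ^ l • v (y (grp r)) l) =o[𝓝 0]
        fun h => h ^ (Nm (y (grp r)) - 1) := by
    intro r
    have h1 := hJ.exp (y (grp r))
    have h2 : Tendsto (fun h : ℝ => y (grp r) + h) (𝓝 0) (𝓝 (y (grp r))) := by
      have h3 : Continuous fun h : ℝ => y (grp r) + h := by fun_prop
      have h4 := h3.tendsto 0
      rwa [add_zero] at h4
    have h3 := h1.comp_tendsto h2
    refine (h3.congr_left ?_).congr_right ?_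
    · intro h
      simp [Function.comp]
    · intro h
      simp [Function.comp]
  have hL := hlim (fun i => Nm (y i)) (fun i l => v (y i) l) (fun i h => γ (y i + h)) hr hexp
  have hL2 := hL.const_mul ε
  refine ge_of_tendsto hL2 ?_
  have hmono : ∀ᶠ h : ℝ in 𝓝[>] 0, StrictMono fun r : Fin m => y (grp r) + rho grp r * h := by
    have h1 : ∀ r s : Fin m, ∀ᶠ h : ℝ in 𝓝[>] 0, r < s →
        y (grp r) + rho grp r * h < y (grp s) + rho grp s * h := by
      intro r s
      rcases (le_or_gt s r) with hsr | hrs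
      · exact Filter.Eventually.of_forall fun h h2 => absurd h2 (not_lt.2 hsr)
      · rcases (hg hrs.le).eq_or_lt with he | hl
        · filter_upwards [self_mem_nhdsWithin] with h hh _
          have h0 : (0 : ℝ) < h := hh
          have h2 : (rho grp r : ℝ) < rho grp s := by exact_mod_cast cs_rho_lt grp hrs he
          rw [he]
          have := mul_lt_mul_of_pos_right h2 h0
          linarith
        · have h2 : y (grp r) < y (grp s) := hy hl
          have h3 : ContinuousAt (fun h : ℝ => y (grp r) + rho grp r * h) 0 := by fun_prop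
          have h4 : ContinuousAt (fun h : ℝ => y (grp s) + rho grp s * h) 0 := by fun_prop
          have h5 : ∀ᶠ h : ℝ in 𝓝 0, y (grp r) + rho grp r * h < y (grp s) + rho grp s * h :=
            h3.eventually_lt h4 (by simpa using h2)
          exact (h5.filter_mono nhdsWithin_le_nhds).mono fun h hh _ => hh
    have h2 : ∀ᶠ h : ℝ in 𝓝[>] 0, ∀ r s : Fin m, r < s →
        y (grp r) + rho grp r * h < y (grp s) + rho grp s * h := by
      rw [Filter.eventually_all]
      intro r
      rw [Filter.eventually_all]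
      exact h1 r
    exact h2.mono fun h hh r s hrs => hh r s hrs
  filter_upwards [hmono, self_mem_nhdsWithin] with h hm hh
  have h0 : (0 : ℝ) < h := hh
  have h1 := hpos _ hm
  have h2 := hD h h0
  have h3 : ε * ((D h)⁻¹ * Matrix.det fun r => γ (y (grp r) + rho grp r * h)) =
      (D h)⁻¹ * (ε * Matrix.det fun r => γ (y (grp r) + rho grp r * h)) := by ring
  rw [h3]
  positivity

theorem taylor_tp {m : ℕ} {γ : ℝ → Fin m → ℝ} (hγ : TR.ConvexCurve m γ) {Nm : ℝ → ℕ}
    {v : ℝ → ℕ → Fin m → ℝ} (hJ : Jet m γ Nm v) {ε : ℝ} (hε : ε = 1 ∨ ε = -1)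
    (hpos : ∀ t : Fin m → ℝ, StrictMono t → 0 < ε * Matrix.det (fun i => γ (t i)))
    {y : ℕ → ℝ} (hy : StrictMono y) {grp k : Fin m → ℕ} (hg : Monotone grp)
    (hk : ∀ r s, r < s → grp r = grp s → k r < k s) (hkN : ∀ r, k r < Nm (y (grp r))) :
    ∀ᶠ h : ℝ in 𝓝[>] 0, 0 < ε * Matrix.det (fun r =>
      ∑ l ∈ Finset.range (Nm (y (grp r))), (k r * h) ^ l • v (y (grp r)) l) := by
  have hr : ∀ r, rho grp r < Nm (y (grp r)) := fun r => (cs_rho_le hk r).trans_lt (hkN r)
  obtain ⟨D, hD, hlim⟩ := dd_limit (grp := grp) (k := k) hk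
  have hL := hlim (fun i => Nm (y i)) (fun i l => v (y i) l)
    (fun i x => ∑ l ∈ Finset.range (Nm (y i)), x ^ l • v (y i) l) hr (by
      intro r
      simp only [sub_self]
      exact Asymptotics.isLittleO_zero _ _)
  have hL2 := hL.const_mul ε
  have hcs := conf_sign hγ hJ hε hpos hy hg hr
  filter_upwards [hL2.eventually_const_lt hcs, self_mem_nhdsWithin] with h h1 hh
  have h0 : (0 : ℝ) < h := hh
  have h2 := hD h h0
  have h3 : ε * Matrix.det (fun r =>
      ∑ l ∈ Finset.range (Nm (y (grp r))), (k r * h) ^ l • v (y (grp r)) l) =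
      D h * (ε * ((D h)⁻¹ * Matrix.det fun r =>
        ∑ l ∈ Finset.range (Nm (y (grp r))), (k r * h) ^ l • v (y (grp r)) l)) := by
    rw [mul_left_comm (D h) ε, mul_inv_cancel_left₀ h2.ne']
  rw [h3]
  exact mul_pos h2 h1

end TD
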