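import Mathlib

/-!
# TD PEA : Peano's form of Taylor's theorem with minimal hypotheses

PROOF.  Induction on `n` (for all `f`).  `n = 0`: `f t = o((t-z)^(0-1)) `: excluded by `1 ≤ n`.
`n = 1`: `f t - f z → 0`.  `n = 2`: `iteratedDeriv 1 f z = deriv f z ≠ 0`, so `f` is differentiable at
`z` and the claim is the definition of the derivative.  `n ≥ 3`: put `f' = deriv f`;
`iteratedDeriv l f' z = iteratedDeriv (l+1) f z ≠ 0` for `l < n - 1` (`iteratedDeriv_succ'`).
`deriv f' z ≠ 0`, so `f'` is differentiable, hence continuous at `z`; `f' z ≠ 0`, so `f' t ≠ 0` for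
`t` near `z`, hence `f` is differentiable near `z`.  The induction hypothesis for `f'` and `n - 1`
gives `f' t - Σ_(l<n-1) (t-z)^l (l!)⁻¹ f^(l+1)(z) = o((t-z)^(n-2))`; the left side is the derivative
of `R t = f t - Σ_(l<n) (t-z)^l (l!)⁻¹ f^(l)(z)` near `z`, `R z = 0`, so
`‖R t‖ ≤ sup ‖R'‖ |t - z|` on the segment (`Convex.norm_image_sub_le_of_norm_deriv_le` or
`image_norm_le_of_norm_deriv_right_le_deriv_boundary`) is `o((t-z)^(n-1))`.
-/

set_option autoImplicit false

open Topology Filter Asymptotics

namespace TD

theorem peano_aux {E : Type*} [NormedAddCommGroup E] [NormedSpace ℝ E] {z : ℝ} (n : ℕ) :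
    ∀ f : ℝ → E, ContinuousAt f z → (∀ l < n + 1, iteratedDeriv l f z ≠ 0) →
    (fun t => f t - ∑ l ∈ Finset.range (n + 1),
      (t - z) ^ l • (((l.factorial : ℝ)⁻¹) • iteratedDeriv l f z)) =o[𝓝 z]
      fun t => (t - z) ^ n := by
  induction n with
  | zero =>
    intro f hc _
    simp only [zero_add, Finset.range_one, Finset.sum_singleton, pow_zero, Nat.factorial_zero,
      Nat.cast_one, inv_one, one_smul, iteratedDeriv_zero]
    rw [Asymptotics.isLittleO_one_iff]
    have h1 : Tendsto (fun t => f t - f z) (𝓝 z) (𝓝 (f z - f z)) := hc.sub_const _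
    rwa [sub_self] at h1
  | succ n ih =>
    rcases n with _ | n
    · intro f hc hne
      have h1 : deriv f z ≠ 0 := by
        have := hne 1 (by norm_num)
        rwa [iteratedDeriv_one] at this
      have h2 : DifferentiableAt ℝ f z := differentiableAt_of_deriv_ne_zero h1
      have h3 := h2.hasDerivAt
      rw [hasDerivAt_iff_isLittleO] at h3
      refine (h3.congr_left ?_).congr_right ?_
      · intro t
        simp [Finset.sum_range_succ, sub_sub]
      · intro t
        simp
    · intro f hc hne
      have hne1 : ∀ l < n + 1 + 1, iteratedDeriv l (deriv f) z ≠ 0 := by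
        intro l hl
        have := hne (l + 1) (by omega)
        rwa [iteratedDeriv_succ'] at this
      have hd1 : deriv (deriv f) z ≠ 0 := by
        have := hne1 1 (by omega)
        rwa [iteratedDeriv_one] at this
      have hd0 : deriv f z ≠ 0 := by
        have := hne1 0 (by omega)
        rwa [iteratedDeriv_zero] at this
      have hcf : ContinuousAt (deriv f) z :=
        (differentiableAt_of_deriv_ne_zero hd1).continuousAt
      have hev : ∀ᶠ t in 𝓝 z, deriv f t ≠ 0 := hcf.eventually_ne hd0
      obtain ⟨r, hr, hball⟩ := Metric.eventually_nhds_iff_ball.1 hev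
      have hI := ih (deriv f) hcf hne1
      set R : ℝ → E := fun t => f t - ∑ l ∈ Finset.range (n + 1 + 1 + 1),
        (t - z) ^ l • (((l.factorial : ℝ)⁻¹) • iteratedDeriv l f z) with hR
      set R' : ℝ → E := fun t => deriv f t - ∑ l ∈ Finset.range (n + 1 + 1),
        (t - z) ^ l • (((l.factorial : ℝ)⁻¹) • iteratedDeriv l (deriv f) z) with hR'
      have hder : ∀ t ∈ Metric.ball z r, HasDerivWithinAt R (R' t) (Metric.ball z r) t := by
        intro t ht
        apply HasDerivAt.hasDerivWithinAt
        have h1 : HasDerivAt f (deriv f t) t :=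
          (differentiableAt_of_deriv_ne_zero (hball t ht)).hasDerivAt
        have h2 : HasDerivAt (fun t => ∑ l ∈ Finset.range (n + 1 + 1 + 1),
            (t - z) ^ l • (((l.factorial : ℝ)⁻¹) • iteratedDeriv l f z))
            (∑ l ∈ Finset.range (n + 1 + 1 + 1),
              ((l : ℝ) * (t - z) ^ (l - 1)) • (((l.factorial : ℝ)⁻¹) • iteratedDeriv l f z)) t := by
          refine HasDerivAt.fun_sum fun l _ => ?_
          have h3 : HasDerivAt (fun t : ℝ => (t - z) ^ l) ((l : ℝ) * (t - z) ^ (l - 1)) t := by
            have := ((hasDerivAt_id t).sub_const z).fun_pow l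
            simpa using this
          exact h3.smul_const _
        have h4 : ∑ l ∈ Finset.range (n + 1 + 1 + 1),
              ((l : ℝ) * (t - z) ^ (l - 1)) • (((l.factorial : ℝ)⁻¹) • iteratedDeriv l f z) =
            ∑ l ∈ Finset.range (n + 1 + 1),
              (t - z) ^ l • (((l.factorial : ℝ)⁻¹) • iteratedDeriv l (deriv f) z) := by
          rw [Finset.sum_range_succ']
          simp only [Nat.cast_zero, zero_mul, zero_smul, add_zero, Nat.add_sub_cancel]
          refine Finset.sum_congr rfl fun l _ => ?_
          rw [iteratedDeriv_succ', smul_smul, smul_smul]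
          congr 1
          rw [Nat.factorial_succ]
          push_cast
          have h5 : (l : ℝ) + 1 ≠ 0 := by positivity
          have h6 : (l.factorial : ℝ) ≠ 0 := by positivity
          field_simp
        rw [h4] at h2
        exact h1.sub h2
      have hz : z ∈ Metric.ball z r := Metric.mem_ball_self hr
      have hO := (convex_ball z r).isLittleO_pow_succ_real (f := R) (f' := R') (n := n + 1) hz
        hder (hI.mono nhdsWithin_le_nhds)
      rw [Metric.isOpen_ball.nhdsWithin_eq hz] at hO
      have hRz : R z = 0 := by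
        simp only [hR, sub_self]
        rw [Finset.sum_range_succ']
        simp
      simpa [hRz] using hO

theorem peano {E : Type*} [NormedAddCommGroup E] [NormedSpace ℝ E] {f : ℝ → E} {z : ℝ} {n : ℕ}
    (hn : 1 ≤ n) (hc : ContinuousAt f z) (hne : ∀ l < n, iteratedDeriv l f z ≠ 0) :
    (fun t => f t - ∑ l ∈ Finset.range n,
      (t - z) ^ l • (((l.factorial : ℝ)⁻¹) • iteratedDeriv l f z)) =o[𝓝 z]
      fun t => (t - z) ^ (n - 1) := by
  obtain ⟨k, rfl⟩ : ∃ k, n = k + 1 := ⟨n - 1, by omega⟩
  exact peano_aux k f hc hne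

end TD
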