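import Pool.Agent.Helper65.TD.PM
import Pool.Agent.TR.Fact

/-!
# TD DW : the window functionals of a totally positive configuration are totally positive

PROOF.  `TR.fact`: positive data `p`; put `e k = (-1)^k • g (M + k)` and
`b j k = Σ_(i<m) cf m p j k i • e i` (`j ≤ M`, `k < m`), so `b 0 k = e k`,
`b (j+1) k = Σ_(l ∈ [k,m)) p (j+1) l • b j l`, hence
`b (j+1) k = p (j+1) k • b j k + b (j+1) (k+1)` (with `b _ m = 0`), and `b j 0 = g (M - j)` for
`1 ≤ j ≤ M` (also for `j = 0`).  (`TR.factB` and its lemmas may be useful.)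
(K) `g (M - j + l) ∈ span {b j 0, ..., b j l}` for `l < m`, `j ≤ M`, by induction on `j`: `j = 0` is
clear; `b j i = (p (j+1) i)⁻¹ • (b (j+1) i - b (j+1) (i+1))`, so
`g (M - (j+1) + l) = g (M - j + (l-1)) ∈ span {b j 0, .., b j (l-1)} ⊆ span {b (j+1) 0, .., b (j+1) l}`
for `l ≥ 1`, and `l = 0` is `b (j+1) 0 = g (M - (j+1))`.
Each `(b j k)_(k<m)` is a basis (triangular with positive diagonal over the basis `e`; `e` is a basis
by `hpos`).
Dual side.  Let `c0 : Fin m → (Fin m → ℝ)` be the vectors with `c0 l' ⬝ᵥ b M k = δ_(k, m-1-l')`.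
`q s k' = 1` for `s ≤ 1` and `q s k' = p (M + 2 - s) (m - 1 - k')` for `2 ≤ s ≤ M + 1`
(`1` otherwise, and for `k' ≥ m`).  `C s l' = Σ_(i<m) cf m q s l' i • c0 i`.
Claim: for `s ≤ M` and `k, l' < m`: `C s l' ⬝ᵥ b (M - s) k = a s l' * δ_(k, m-1-l')` with
`a 0 l' = 1`, `a s l' = (p (M - s + 1) (m - 1 - l'))⁻¹` for `s ≥ 1`; note `q (s+1) k' * a s k' = 1`.
Induction: with `j = M - s - 1`, `b j k = (p (j+1) k)⁻¹ • (b (j+1) k - b (j+1) (k+1))` and
`C (s+1) l' = Σ_(k' ≥ l') q (s+1) k' • C s k'`:
`C (s+1) l' ⬝ᵥ b j k = (p (j+1) k)⁻¹ ([m-1-k ≥ l'] - [k+1 < m and m-2-k ≥ l'])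
= (p (j+1) k)⁻¹ [k = m-1-l']`.
Put `B w = C w 0` for `w ≤ M`.  It kills `b (M-w) 0, ..., b (M-w) (m-2)`, so by (K) it kills
`g (w + l)`, `l < m - 1`.  The matrix of the rows `B (σ r) = Σ_i cf m q (σ r) 0 i • c0 i` is
`(cf m q (σ r) 0 i) * (c0)`, so its determinant is a positive number (`posmin`) times
`det c0 ≠ 0`.
-/

set_option autoImplicit false

open Matrix

namespace TD

open TR Finset

variable {m M : ℕ} {g : ℕ → Fin m → ℝ} {p : ℕ → ℕ → ℝ}

theorem factB_top (M : ℕ) (g : ℕ → Fin m → ℝ) (p : ℕ → ℕ → ℝ) (j : ℕ) :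
    factB M g p (j + 1) m = 0 := by
  rw [factB_succ', Finset.Ico_self, Finset.sum_empty]

theorem factB_pred (hp : Pos p) (j : ℕ) {k : ℕ} (hk : k < m) :
    factB M g p j k
      = (p (j + 1) k)⁻¹ • (factB M g p (j + 1) k - factB M g p (j + 1) (k + 1)) := by
  rw [factB_succ M g p j hk, add_sub_cancel_right, smul_smul,
    inv_mul_cancel₀ (hp (j + 1) k).ne', one_smul]

/-- (K) -/
theorem win_span (hp : Pos p) (h0 : ∀ j ≤ M, factB M g p j 0 = g (M - j)) (j : ℕ) (hj : j ≤ M) :
    ∀ l < m, g (M - j + l) ∈ Submodule.span ℝ {x | ∃ i ≤ l, x = factB M g p j i} := by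
  induction j with
  | zero =>
    intro l hl
    have h1 : g (M - 0 + l) = (-1 : ℝ) ^ l • factB M g p 0 l := by
      rw [factB_zero M g p hl, smul_smul, ← mul_pow]
      simp
    rw [h1]
    exact Submodule.smul_mem _ _ (Submodule.subset_span ⟨l, le_rfl, rfl⟩)
  | succ j ih =>
    intro l hl
    rcases l with _ | l
    · show g (M - (j + 1)) ∈ _
      rw [← h0 (j + 1) hj]
      exact Submodule.subset_span ⟨0, le_rfl, rfl⟩
    · have h1 : M - (j + 1) + (l + 1) = M - j + l := by omega
      rw [h1]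
      have h2 := ih (by omega) l (by omega)
      refine (Submodule.span_le.mpr ?_) h2
      rintro x ⟨i, hi, rfl⟩
      rw [SetLike.mem_coe, factB_pred hp j (by omega : i < m)]
      refine Submodule.smul_mem _ _ (Submodule.sub_mem _ ?_ ?_)
      · exact Submodule.subset_span ⟨i, by omega, rfl⟩
      · exact Submodule.subset_span ⟨i + 1, by omega, rfl⟩

/-- The matrix of the vectors `b j k`. -/
theorem factB_det (hp : Pos p) (hg : Matrix.det (fun i : Fin m => g (M + i)) ≠ 0) (j : ℕ) :
    Matrix.det (fun k : Fin m => factB M g p j k) ≠ 0 := by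
  have h1 : (fun k : Fin m => factB M g p j k) =
      (Matrix.of fun k i : Fin m => cf m p j k i) *
        (Matrix.of fun i : Fin m => (-1 : ℝ) ^ (i : ℕ) • g (M + i)) := by
    funext k
    ext c
    rw [Matrix.mul_apply]
    unfold factB
    rw [Finset.sum_apply, Finset.sum_range]
    rfl
  have h2 : Matrix.det (Matrix.of fun k i : Fin m => cf m p j k i) ≠ 0 := by
    rw [Matrix.det_of_isUpperTriangular]
    · refine (Finset.prod_pos fun i _ => ?_).ne'
      exact cf_diag_pos hp j i.isLt
    · intro a b hab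
      exact cf_lt p j hab
  have h3 : Matrix.det (Matrix.of fun i : Fin m => (-1 : ℝ) ^ (i : ℕ) • g (M + i)) ≠ 0 := by
    have h4 : (Matrix.of fun i : Fin m => (-1 : ℝ) ^ (i : ℕ) • g (M + i)) =
        Matrix.of fun i c : Fin m => (-1 : ℝ) ^ (i : ℕ) *
          (Matrix.of fun i : Fin m => g (M + i)) i c := rfl
    rw [h4, Matrix.det_mul_column]
    refine mul_ne_zero (Finset.prod_ne_zero_iff.mpr fun i _ => ?_) hg
    exact pow_ne_zero _ (by norm_num)
  rw [h1, Matrix.det_mul]
  exact mul_ne_zero h2 h3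

theorem dual_windows {m M : ℕ} (hm : 2 ≤ m) (g : ℕ → Fin m → ℝ) {ε : ℝ} (hε : ε = 1 ∨ ε = -1)
    (hpos : ∀ σ : Fin m → ℕ, StrictMono σ → (∀ i, σ i < M + m) →
      0 < ε * Matrix.det (fun i => g (σ i))) :
    ∃ (B : ℕ → Fin m → ℝ) (ε' : ℝ), (ε' = 1 ∨ ε' = -1) ∧
      (∀ σ : Fin m → ℕ, StrictMono σ → (∀ i, σ i ≤ M) → 0 < ε' * Matrix.det (fun i => B (σ i))) ∧
      ∀ w ≤ M, ∀ l < m - 1, B w ⬝ᵥ g (w + l) = 0 := by
  obtain ⟨p, hp, hp1⟩ := TR.fact (by omega : 1 ≤ m) g hε hpos
  have h0 : ∀ j ≤ M, factB M g p j 0 = g (M - j) := by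
    intro j hj
    rcases Nat.eq_zero_or_pos j with rfl | hj0
    · rw [factB_zero M g p (by omega)]
      simp
    · exact hp1 j hj0 hj
  have hgM : Matrix.det (fun i : Fin m => g (M + i)) ≠ 0 := by
    intro h
    have h1 := hpos (fun i : Fin m => M + i) (fun a b hab => by
      have : (a : ℕ) < b := hab
      show M + (a : ℕ) < M + b
      omega) (fun i => by have := i.isLt; omega)
    rw [h, mul_zero] at h1
    exact lt_irrefl _ h1
  -- the matrix of `b M`
  set Bm : Matrix (Fin m) (Fin m) ℝ := Matrix.of fun k : Fin m => factB M g p M k with hBm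
  have hBdet : Bm.det ≠ 0 := factB_det hp hgM M
  have hBinv : Bm * Bm⁻¹ = 1 := Matrix.mul_nonsing_inv _ (isUnit_iff_ne_zero.mpr hBdet)
  let c0 : ℕ → Fin m → ℝ := fun l i => if h : l < m then Bm⁻¹ i ⟨m - 1 - l, by omega⟩ else 0
  have hc0 : ∀ l < m, ∀ k < m, c0 l ⬝ᵥ factB M g p M k = if k = m - 1 - l then 1 else 0 := by
    intro l hl k hk
    have h1 := congrFun (congrFun hBinv ⟨k, hk⟩) ⟨m - 1 - l, by omega⟩
    rw [Matrix.mul_apply, Matrix.one_apply] at h1
    have h2 : c0 l ⬝ᵥ factB M g p M k = ∑ j, Bm ⟨k, hk⟩ j * Bm⁻¹ j ⟨m - 1 - l, by omega⟩ := by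
      unfold dotProduct
      refine Finset.sum_congr rfl fun i _ => ?_
      simp only [c0, hl, dif_pos, hBm, Matrix.of_apply]
      rw [mul_comm]
    rw [h2, h1]
    simp only [Fin.mk.injEq]
  let q : ℕ → ℕ → ℝ := fun s k => if 2 ≤ s ∧ s ≤ M + 1 ∧ k < m then p (M + 2 - s) (m - 1 - k) else 1
  have hq : Pos q := by
    intro s k
    show 0 < if 2 ≤ s ∧ s ≤ M + 1 ∧ k < m then p (M + 2 - s) (m - 1 - k) else 1
    split_ifs
    · exact hp _ _
    · exact one_pos
  let a : ℕ → ℕ → ℝ := fun s k => if s = 0 then 1 else (p (M - s + 1) (m - 1 - k))⁻¹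
  have hqa : ∀ s ≤ M, ∀ k < m, q (s + 1) k * a s k = 1 := by
    intro s hs k hk
    rcases Nat.eq_zero_or_pos s with rfl | h
    · simp [q, a]
    · have h1 : 2 ≤ s + 1 ∧ s + 1 ≤ M + 1 ∧ k < m := ⟨by omega, by omega, hk⟩
      have h2 : M + 2 - (s + 1) = M - s + 1 := by omega
      simp only [q, a, h1, and_self, if_true, h.ne', if_false, h2]
      exact mul_inv_cancel₀ (hp _ _).ne'
  let C : ℕ → ℕ → Fin m → ℝ := fun s l => ∑ i ∈ range m, cf m q s l i • c0 i
  have hC0 : ∀ l < m, C 0 l = c0 l := by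
    intro l hl
    simp only [C]
    rw [Finset.sum_eq_single l]
    · simp [cf, hl]
    · intro i _ hi
      simp [cf, Ne.symm hi]
    · intro h
      exact absurd (Finset.mem_range.mpr hl) h
  have hCs : ∀ s l, C (s + 1) l = ∑ k ∈ Ico l m, q (s + 1) k • C s k := by
    intro s l
    simp only [C, cf, Finset.smul_sum, Finset.sum_smul]
    rw [Finset.sum_comm]
    refine Finset.sum_congr rfl fun i _ => Finset.sum_congr rfl fun l _ => ?_
    rw [mul_smul]
  have hclaim : ∀ s ≤ M, ∀ l < m, ∀ k < m, C s l ⬝ᵥ factB M g p (M - s) k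
      = if k = m - 1 - l then a s l else 0 := by
    intro s
    induction s with
    | zero =>
      intro _ l hl k hk
      rw [hC0 l hl, Nat.sub_zero, hc0 l hl k hk]
      simp [a]
    | succ s ih =>
      intro hs l hl k hk
      have hj : M - s = M - (s + 1) + 1 := by omega
      have ih' := ih (by omega)
      rw [hj] at ih'
      have hkey : ∀ k' < m, q (s + 1) k' * (C s k' ⬝ᵥ factB M g p (M - (s + 1)) k)
          = (p (M - (s + 1) + 1) k)⁻¹ *
            ((if k' = m - 1 - k then 1 else 0) - (if k' + 1 = m - 1 - k then 1 else 0)) := by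
        intro k' hk'
        rw [factB_pred hp _ hk, dotProduct_smul, dotProduct_sub, ih' k' hk' k hk]
        have h2 : C s k' ⬝ᵥ factB M g p (M - (s + 1) + 1) (k + 1)
            = if k' + 1 = m - 1 - k then a s k' else 0 := by
          rcases Nat.lt_or_ge (k + 1) m with h | h
          · rw [ih' k' hk' (k + 1) h]
            have : (k + 1 = m - 1 - k') ↔ (k' + 1 = m - 1 - k) := by omega
            simp only [this]
          · have h3 : k + 1 = m := by omega
            rw [h3, factB_top, dotProduct_zero, if_neg (by omega)]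
        rw [h2]
        have h3 : (k = m - 1 - k') ↔ (k' = m - 1 - k) := by omega
        simp only [h3]
        have h4 := hqa s (by omega) k' hk'
        rw [smul_eq_mul]
        split_ifs with h5 h6
        · omega
        · linear_combination (p (M - (s + 1) + 1) k)⁻¹ * h4
        · linear_combination -(p (M - (s + 1) + 1) k)⁻¹ * h4
        · ring
      rw [hCs, sum_dotProduct]
      have h1 : ∑ k' ∈ Ico l m, (q (s + 1) k' • C s k') ⬝ᵥ factB M g p (M - (s + 1)) k
          = ∑ k' ∈ Ico l m, (p (M - (s + 1) + 1) k)⁻¹ *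
            ((if k' = m - 1 - k then 1 else 0) - (if k' + 1 = m - 1 - k then 1 else 0)) := by
        refine Finset.sum_congr rfl fun k' hk' => ?_
        rw [Finset.mem_Ico] at hk'
        rw [smul_dotProduct, smul_eq_mul, hkey k' hk'.2]
      rw [h1, ← Finset.mul_sum, Finset.sum_sub_distrib]
      have h2 : ∑ k' ∈ Ico l m, (if k' = m - 1 - k then (1 : ℝ) else 0)
          = if l ≤ m - 1 - k then 1 else 0 := by
        rw [Finset.sum_ite_eq']
        simp only [Finset.mem_Ico]
        have : (l ≤ m - 1 - k ∧ m - 1 - k < m) ↔ (l ≤ m - 1 - k) := by omega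
        simp only [this]
      have h3 : ∑ k' ∈ Ico l m, (if k' + 1 = m - 1 - k then (1 : ℝ) else 0)
          = if l + 1 ≤ m - 1 - k then 1 else 0 := by
        have h4 : ∀ k' ∈ Ico l m, (if k' + 1 = m - 1 - k then (1 : ℝ) else 0)
            = if k' = m - 1 - k - 1 then (if l + 1 ≤ m - 1 - k then 1 else 0) else 0 := by
          intro k' hk'
          rw [Finset.mem_Ico] at hk'
          by_cases h5 : k' + 1 = m - 1 - k
          · rw [if_pos h5, if_pos (by omega), if_pos (by omega)]
          · rw [if_neg h5]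
            by_cases h6 : k' = m - 1 - k - 1
            · rw [if_pos h6, if_neg (by omega)]
            · rw [if_neg h6]
        rw [Finset.sum_congr rfl h4, Finset.sum_ite_eq']
        simp only [Finset.mem_Ico]
        by_cases h5 : l + 1 ≤ m - 1 - k
        · rw [if_pos h5, if_pos (by omega)]
        · rw [if_neg h5]
          simp
      rw [h2, h3]
      by_cases h5 : k = m - 1 - l
      · rw [if_pos h5, if_pos (by omega), if_neg (by omega)]
        have h6 : a (s + 1) l = (p (M - (s + 1) + 1) (m - 1 - l))⁻¹ := by simp [a]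
        rw [h6, ← h5]
        ring
      · rw [if_neg h5]
        by_cases h6 : l ≤ m - 1 - k
        · rw [if_pos h6, if_pos (by omega)]
          ring
        · rw [if_neg h6, if_neg (by omega)]
          ring
  -- the determinant of `c0`
  have hc0det : Matrix.det (fun l : Fin m => c0 l) ≠ 0 := by
    have h1 : (fun l : Fin m => c0 l) = (Bm⁻¹)ᵀ.submatrix Fin.revPerm id := by
      funext l
      ext i
      have h2 : (⟨m - 1 - (l : ℕ), by omega⟩ : Fin m) = Fin.revPerm l := by
        ext
        simp only [Fin.revPerm_apply, Fin.val_rev]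
        omega
      simp only [c0, l.isLt, dif_pos, Matrix.submatrix_apply, Matrix.transpose_apply, id, h2]
    rw [h1, Matrix.det_permute, Matrix.det_transpose, Matrix.det_nonsing_inv]
    refine mul_ne_zero ?_ ?_
    · rcases Int.units_eq_one_or (Equiv.Perm.sign (Fin.revPerm : Equiv.Perm (Fin m))) with h | h <;>
        rw [h] <;> simp
    · rw [Ring.inverse_eq_inv']
      exact inv_ne_zero hBdet
  refine ⟨fun w => C w 0, if 0 < Matrix.det (fun l : Fin m => c0 l) then 1 else -1, ?_, ?_, ?_⟩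
  · split_ifs
    · exact Or.inl rfl
    · exact Or.inr rfl
  · intro σ hσ _
    have h1 : (fun i : Fin m => C (σ i) 0) = (Matrix.of fun r i : Fin m => cf m q (σ r) 0 i) *
        (Matrix.of fun l : Fin m => c0 l) := by
      funext r
      ext c
      rw [Matrix.mul_apply]
      simp only [C]
      rw [Finset.sum_apply, Finset.sum_range]
      rfl
    have h2 : 0 < Matrix.det (Matrix.of fun r i : Fin m => cf m q (σ r) 0 i) := posmin hq hσ
    rw [h1, Matrix.det_mul]
    have h3 : 0 < (if 0 < Matrix.det (fun l : Fin m => c0 l) then (1 : ℝ) else -1) *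
        Matrix.det (fun l : Fin m => c0 l) := by
      split_ifs with h
      · linarith
      · have h4 : Matrix.det (fun l : Fin m => c0 l) < 0 := lt_of_le_of_ne (not_lt.mp h) hc0det
        linarith
    have h4 := mul_pos h2 h3
    have h5 : Matrix.det (Matrix.of fun l : Fin m => c0 l) = Matrix.det (fun l : Fin m => c0 l) := rfl
    rw [h5]
    linarith
  · intro w hw l hl
    have h1 := win_span hp h0 (M - w) (by omega) l (by omega)
    have h2 : M - (M - w) + l = w + l := by omega
    rw [h2] at h1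
    have h3 : ∀ x ∈ Submodule.span ℝ {x | ∃ i ≤ l, x = factB M g p (M - w) i}, C w 0 ⬝ᵥ x = 0 := by
      intro x hx
      induction hx using Submodule.span_induction with
      | mem x hx =>
        obtain ⟨i, hi, rfl⟩ := hx
        rw [hclaim w hw 0 (by omega) i (by omega), if_neg (by omega)]
      | zero => exact dotProduct_zero _
      | add x y _ _ hx hy => rw [dotProduct_add, hx, hy, add_zero]
      | smul c x _ hx => rw [dotProduct_smul, hx, smul_zero]
    exact h3 _ h1

end TD
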