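import Pool.Agent.TR.Final

/-!
# TD PE : orthogonal complements for the dot product on `ℂ^m`

`perp V = {x | x ⬝ᵥ y = 0 for all y ∈ V}` (no conjugation).

PROOFS.  The bilinear form `(x, y) ↦ x ⬝ᵥ y` is symmetric and nondegenerate
(`LinearMap.BilinForm.finrank_orthogonal`, `orthogonal_orthogonal`, or via
`Submodule.dualAnnihilator` and `Matrix.dotProduct`-lemmas).  `perp_sup`, `perp_meet`:
`V ⊓ W ≠ ⊥` iff `V ⊔ W ≠ ⊤` (dimension formula, `dim V + dim W = m`) iff
`perp (V ⊔ W) = perp V ⊓ perp W ≠ ⊥`.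
`perp_real`: if `V` is the complex span of `cxv '' V0`, then `perp V` is the complex span of
`cxv '' {real vectors orthogonal to V0}`: `x ∈ perp V` iff `x ⬝ᵥ cxv y = 0` for all `y ∈ V0` iff the
real and the imaginary part of `x` are orthogonal to `V0`.
-/

set_option autoImplicit false

open Matrix

namespace TD

def perp {m : ℕ} (V : Submodule ℂ (Fin m → ℂ)) : Submodule ℂ (Fin m → ℂ) where
  carrier := {x | ∀ y ∈ V, x ⬝ᵥ y = 0}
  add_mem' hx hx' y hy := by rw [add_dotProduct, hx y hy, hx' y hy, add_zero]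
  zero_mem' y _ := by simp
  smul_mem' c x hx y hy := by rw [smul_dotProduct, hx y hy, smul_zero]

/-- the bilinear form of the dot product -/
noncomputable def dotB (m : ℕ) : LinearMap.BilinForm ℂ (Fin m → ℂ) :=
  Matrix.toBilin' (1 : Matrix (Fin m) (Fin m) ℂ)

theorem dotB_apply {m : ℕ} (x y : Fin m → ℂ) : dotB m x y = x ⬝ᵥ y := by
  rw [dotB, Matrix.toBilin'_apply', Matrix.one_mulVec]

theorem dotB_nondeg (m : ℕ) : (dotB m).Nondegenerate :=
  LinearMap.BilinForm.nondegenerate_toBilin'_of_det_ne_zero' _ (by simp)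

theorem dotB_refl (m : ℕ) : (dotB m).IsRefl := by
  intro x y h
  rw [dotB_apply] at h ⊢
  rw [dotProduct_comm, h]

theorem perp_eq {m : ℕ} (V : Submodule ℂ (Fin m → ℂ)) : perp V = (dotB m).orthogonal V := by
  ext x
  rw [LinearMap.BilinForm.mem_orthogonal_iff]
  constructor
  · intro h y hy
    change dotB m y x = 0
    rw [dotB_apply, dotProduct_comm]
    exact h y hy
  · intro h y hy
    have h1 : dotB m y x = 0 := h y hy
    rw [dotB_apply, dotProduct_comm] at h1
    exact h1

theorem perp_finrank {m : ℕ} (V : Submodule ℂ (Fin m → ℂ)) :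
    Module.finrank ℂ (perp V) + Module.finrank ℂ V = m := by
  rw [perp_eq, LinearMap.BilinForm.finrank_orthogonal (dotB_nondeg m)]
  have h1 : Module.finrank ℂ V ≤ Module.finrank ℂ (Fin m → ℂ) := Submodule.finrank_le V
  have h2 : Module.finrank ℂ (Fin m → ℂ) = m := by simp
  rw [h2] at h1 ⊢
  omega

theorem perp_perp {m : ℕ} (V : Submodule ℂ (Fin m → ℂ)) : perp (perp V) = V := by
  rw [perp_eq, perp_eq, LinearMap.BilinForm.orthogonal_orthogonal (dotB_nondeg m) (dotB_refl m)]

theorem perp_sup {m : ℕ} (V W : Submodule ℂ (Fin m → ℂ)) : perp (V ⊔ W) = perp V ⊓ perp W := by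
  ext x
  rw [Submodule.mem_inf]
  constructor
  · intro h
    exact ⟨fun y hy => h y (Submodule.mem_sup_left hy), fun y hy => h y (Submodule.mem_sup_right hy)⟩
  · rintro ⟨h1, h2⟩ y hy
    obtain ⟨a, ha, b, hb, rfl⟩ := Submodule.mem_sup.1 hy
    rw [dotProduct_add, h1 a ha, h2 b hb, add_zero]

theorem perp_meet {m : ℕ} {V W : Submodule ℂ (Fin m → ℂ)}
    (h : Module.finrank ℂ V + Module.finrank ℂ W = m) : V ⊓ W ≠ ⊥ ↔ perp V ⊓ perp W ≠ ⊥ := by
  rw [← perp_sup]
  have h1 := perp_finrank (V ⊔ W)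
  have h2 := Submodule.finrank_sup_add_finrank_inf_eq V W
  have h3 : Module.finrank ℂ (perp (V ⊔ W)) = Module.finrank ℂ (V ⊓ W : Submodule ℂ (Fin m → ℂ)) := by
    omega
  rw [ne_eq, ne_eq, ← Submodule.finrank_eq_zero, ← Submodule.finrank_eq_zero (S := perp (V ⊔ W)), h3]

theorem perp_real {m : ℕ} {V : Submodule ℂ (Fin m → ℂ)} (h : TR.IsRealSub V) :
    TR.IsRealSub (perp V) := by
  obtain ⟨V0, rfl⟩ := h
  refine ⟨{ carrier := {x | ∀ y ∈ V0, x ⬝ᵥ y = 0}
            add_mem' := fun hx hx' y hy => by rw [add_dotProduct, hx y hy, hx' y hy, add_zero]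
            zero_mem' := fun y _ => by simp
            smul_mem' := fun c x hx y hy => by rw [smul_dotProduct, hx y hy, smul_zero] }, ?_⟩
  have hkey : ∀ x : Fin m → ℂ, x ∈ perp (Submodule.span ℂ (TR.cxv '' (V0 : Set (Fin m → ℝ)))) ↔
      ∀ y ∈ V0, x ⬝ᵥ TR.cxv y = 0 := by
    intro x
    constructor
    · intro hx y hy
      exact hx _ (Submodule.subset_span ⟨y, hy, rfl⟩)
    · intro hx y hy
      induction hy using Submodule.span_induction with
      | mem y hy =>
        obtain ⟨y0, hy0, rfl⟩ := hy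
        exact hx y0 hy0
      | zero => simp
      | add a b _ _ ha hb => rw [dotProduct_add, ha, hb, add_zero]
      | smul c a _ ha => rw [dotProduct_smul, ha, smul_zero]
  have hre : ∀ (x : Fin m → ℂ) (y : Fin m → ℝ),
      (x ⬝ᵥ TR.cxv y).re = (fun i => (x i).re) ⬝ᵥ y := by
    intro x y
    simp [dotProduct, TR.cxv, Complex.re_sum]
  have him : ∀ (x : Fin m → ℂ) (y : Fin m → ℝ),
      (x ⬝ᵥ TR.cxv y).im = (fun i => (x i).im) ⬝ᵥ y := by
    intro x y
    simp [dotProduct, TR.cxv, Complex.im_sum]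
  ext x
  rw [hkey]
  constructor
  · intro hx
    have e : x = TR.cxv (fun i => (x i).re) + Complex.I • TR.cxv (fun i => (x i).im) := by
      ext i
      simp only [TR.cxv, Pi.add_apply, Pi.smul_apply, smul_eq_mul]
      rw [mul_comm]
      exact (Complex.re_add_im (x i)).symm
    rw [e]
    refine Submodule.add_mem _ (Submodule.subset_span ⟨_, ?_, rfl⟩)
      (Submodule.smul_mem _ _ (Submodule.subset_span ⟨_, ?_, rfl⟩))
    · intro y hy
      rw [← hre, hx y hy, Complex.zero_re]
    · intro y hy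
      rw [← him, hx y hy, Complex.zero_im]
  · intro hx y hy
    induction hx using Submodule.span_induction with
    | mem x hx =>
      obtain ⟨x0, hx0, rfl⟩ := hx
      have h1 : x0 ⬝ᵥ y = 0 := hx0 y hy
      apply Complex.ext
      · rw [hre]
        simpa [TR.cxv] using h1
      · rw [him]
        simp [TR.cxv, dotProduct]
    | zero => simp
    | add a b _ _ ha hb => rw [add_dotProduct, ha, hb, add_zero]
    | smul c a _ ha => rw [smul_dotProduct, ha, smul_zero]

end TD
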