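import Pool.Agent.TR.Final2

/-!
# TD TPR : total reality for totally positive configurations (codimension two)

PROOF.  `TR.fact` with `M = 3 N`, `N = 2 (m - 2) = Nn m (m - 1)`: positive data `p` with
`Σ_(k<m) cf m p j 0 k • e k = g (M - j)`, `1 ≤ j ≤ M`, `e k = (-1)^k • g (M + k)`.  Put
`x i = g (M - (3 i + 2)) = g (3 (N-1-i) + 1)`, `y i = - g (M - (3 i + 3)) = - g (3 (N-1-i))` for
`i < N` : `TR.CD m p e x y` (see Pool/Agent/TR/Final2.lean) with `C = 0`: `e` is independent (signs
and `hpos`), `x i, y i` are independent (two columns of a nonvanishing minor, `m ≤ M`).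
`TR.main` gives `TT m (m-1) p`, `TR.solV_card` the statement for `TR.SolV m x y`, which is the same
set (`i ↦ N - 1 - i`, `span {x, y}` does not change under signs and exchange);
`TR.cnt_catalan`.
-/

set_option autoImplicit false

open Submodule

namespace TD

/-- `(m-2)`-dimensional subspaces meeting the spans of `g (3 i), g (3 i + 1)`. -/
def SolG (m : ℕ) (g : ℕ → Fin m → ℝ) : Set (Submodule ℂ (Fin m → ℂ)) :=
  {V | Module.finrank ℂ V = m - 2 ∧ ∀ i < 2 * (m - 2),
    V ⊓ span ℂ {TR.cxv (g (3 * i)), TR.cxv (g (3 * i + 1))} ≠ ⊥}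

theorem tp_real {m : ℕ} (hm : 3 ≤ m) (g : ℕ → Fin m → ℝ) {ε : ℝ} (hε : ε = 1 ∨ ε = -1)
    (hpos : ∀ σ : Fin m → ℕ, StrictMono σ → (∀ i, σ i < 3 * (2 * (m - 2)) + m) →
      0 < ε * Matrix.det (fun i => g (σ i))) :
    (SolG m g).ncard = catalan (m - 2) ∧ ∀ V ∈ SolG m g, TR.IsRealSub V := by
  obtain ⟨n, rfl⟩ : ∃ n, m = n + 2 := ⟨m - 2, by omega⟩
  have hn : 1 ≤ n := by omega
  have hn2 : n + 2 - 2 = n := by omega
  rw [hn2] at hpos ⊢
  have hM : 3 * (2 * n) = 6 * n := by ring
  rw [hM] at hpos
  obtain ⟨p, hp, hp'⟩ := TR.fact (by omega) (M := 6 * n) g hε hpos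
  have hN : TR.Nn (n + 2) (n + 2 - 1) = 2 * n := by unfold TR.Nn; omega
  have hindep : ∀ σ : Fin (n + 2) → ℕ, StrictMono σ → (∀ i, σ i < 6 * n + (n + 2)) →
      LinearIndependent ℝ (fun i => g (σ i)) := by
    intro σ h1 h2
    have h3 : Matrix.det (fun i => g (σ i)) ≠ 0 := by
      intro h0
      have := hpos σ h1 h2
      rw [h0, mul_zero] at this
      exact lt_irrefl _ this
    exact Matrix.linearIndependent_rows_of_det_ne_zero h3
  have hcd : TR.CD (n + 2) p (fun k => (-1 : ℝ) ^ k • g (6 * n + k))
      (fun i => g (3 * (2 * n - 1 - i) + 1)) (fun i => - g (3 * (2 * n - 1 - i))) := by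
    refine ⟨hp, ?_, ⟨0, fun i hi => ?_⟩, fun i hi => ?_⟩
    · have h3 := hindep (fun i => 6 * n + i)
        (fun i j hij => Nat.add_lt_add_left hij _) (fun i => by have := i.2; omega)
      have h4 := h3.units_smul (fun i : Fin (n + 2) => ((-1 : ℝˣ)) ^ (i : ℕ))
      refine (linearIndependent_equiv' (Equiv.refl _) ?_).mp h4
      funext i
      simp only [Equiv.refl_apply, Function.comp, Pi.smul_apply', Units.smul_def,
        Units.val_pow_eq_pow_val, Units.val_neg, Units.val_one]
    · rw [hN] at hi
      constructor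
      · rw [hp' (3 * i + 2) (by omega) (by omega)]
        congr 1
        omega
      · rw [hp' (3 * i + 3) (by omega) (by omega), zero_smul, sub_neg_eq_add, zero_add]
        congr 1
        omega
    · rw [hN] at hi
      set a := 3 * (2 * n - 1 - i) with ha
      have h3 := hindep (fun j => a + j) (fun i j hij => Nat.add_lt_add_left hij _)
        (fun j => by have := j.2; omega)
      have h4 : LinearIndependent ℝ ![g (a + 1), g a] := by
        have h5 := h3.comp ![(1 : Fin (n + 2)), 0] (by
          intro x y hxy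
          fin_cases x <;> fin_cases y <;> simp_all)
        convert h5 using 1
        funext j
        fin_cases j <;> simp
      have h6 := LinearIndependent.pair_iff.mp h4
      rw [LinearIndependent.pair_iff]
      intro s t hst
      have h7 := h6 s (-t) (by
        rw [neg_smul, ← smul_neg]
        exact hst)
      exact ⟨h7.1, neg_eq_zero.mp h7.2⟩
  have hT := TR.main _ (n + 2) (n + 2 - 1) (by omega) (by omega) rfl p hp
  obtain ⟨h1, h2⟩ := TR.solV_card (by omega) hcd hT
  have hneg : ∀ a b : Fin (n + 2) → ℂ, span ℂ {a, -b} = span ℂ {b, a} := by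
    intro a b
    rw [Set.pair_comm]
    apply le_antisymm
    · rw [span_le]
      rintro x hx
      rcases hx with hx | hx
      · rw [hx]
        exact neg_mem (subset_span (by simp))
      · rw [hx]
        exact subset_span (by simp)
    · rw [span_le]
      rintro x hx
      rcases hx with hx | hx
      · rw [hx, ← neg_neg b]
        exact neg_mem (subset_span (by simp))
      · rw [hx]
        exact subset_span (by simp)
  have hcneg : ∀ v : Fin (n + 2) → ℝ, TR.cxv (-v) = - TR.cxv v := by
    intro v; funext i; simp [TR.cxv]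
  have heq : TR.SolV (n + 2) (fun i => g (3 * (2 * n - 1 - i) + 1))
      (fun i => - g (3 * (2 * n - 1 - i))) = SolG (n + 2) g := by
    ext V
    unfold TR.SolV SolG
    simp only [Set.mem_ofPred_eq]
    rw [hN, hn2]
    refine and_congr_right fun _ => ?_
    constructor
    · intro h i hi
      have := h (2 * n - 1 - i) (by omega)
      rw [hcneg, hneg, show 2 * n - 1 - (2 * n - 1 - i) = i by omega] at this
      exact this
    · intro h i hi
      rw [hcneg, hneg]
      exact h (2 * n - 1 - i) (by omega)
  rw [heq] at h1 h2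
  refine ⟨?_, h2⟩
  rw [h1, TR.cnt_catalan (by omega)]
  congr 1

end TD
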