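import Pool.Agent.Helper65.TD.CS
import Pool.Agent.Helper65.TD.DW
import Pool.Agent.Helper65.TD.TPR
import Pool.Agent.Helper65.TD.PE
import Pool.Agent.Helper65.TD.PEA
import Pool.Agent.TR.SignC

/-!
# TD ASM : assembly, layout of the columns
-/

set_option autoImplicit false

open Topology Filter Matrix Submodule

namespace TD

/-- the site of the position `p`. -/
def gp (n p : ℕ) : ℕ :=
  if p / (n + 1) < 2 * n then (if p % (n + 1) = 0 then 2 * (p / (n + 1)) else 2 * (p / (n + 1)) + 1)
  else 4 * n + (p - 2 * n * (n + 1))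

/-- the node number of the position `p`. -/
def kp (n p : ℕ) : ℕ := if p / (n + 1) < 2 * n then p % (n + 1) - 1 else 0

theorem dm (n p : ℕ) : (n + 1) * (p / (n + 1)) + p % (n + 1) = p := Nat.div_add_mod p (n + 1)

theorem div_lt_iff' (n p : ℕ) : p / (n + 1) < 2 * n ↔ p < 2 * n * (n + 1) := by
  rw [Nat.div_lt_iff_lt_mul (Nat.succ_pos n)]

theorem gp_lt {n p : ℕ} (h : p < 2 * n * (n + 1)) : gp n p < 4 * n := by
  have h1 := (div_lt_iff' n p).2 h
  unfold gp
  rw [if_pos h1]
  split_ifs <;> omega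

theorem gp_ge {n p : ℕ} (h : ¬ p < 2 * n * (n + 1)) : gp n p = 4 * n + (p - 2 * n * (n + 1)) := by
  have h1 : ¬ p / (n + 1) < 2 * n := fun h' => h ((div_lt_iff' n p).1 h')
  unfold gp
  rw [if_neg h1]

/-- the positions are sorted lexicographically. -/
theorem gp_lex {n p q : ℕ} (hpq : p < q) : gp n p < gp n q ∨ (gp n p = gp n q ∧ kp n p < kp n q) := by
  by_cases hq : q < 2 * n * (n + 1)
  · have hp : p < 2 * n * (n + 1) := hpq.trans hq
    have hq1 := (div_lt_iff' n q).2 hq
    have hp1 := (div_lt_iff' n p).2 hp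
    have hle : p / (n + 1) ≤ q / (n + 1) := Nat.div_le_div_right hpq.le
    unfold gp kp
    rw [if_pos hq1, if_pos hp1, if_pos hp1, if_pos hq1]
    rcases hle.lt_or_eq with h | h
    · left
      split_ifs <;> omega
    · have e1 := dm n p
      have e2 := dm n q
      rw [h] at e1
      have h3 : p % (n + 1) < q % (n + 1) := by omega
      rw [h]
      by_cases h4 : p % (n + 1) = 0
      · left
        rw [if_pos h4, if_neg (by omega)]
        omega
      · right
        rw [if_neg h4, if_neg (by omega)]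
        omega
  · left
    by_cases hp : p < 2 * n * (n + 1)
    · have := gp_lt hp
      rw [gp_ge hq]
      omega
    · rw [gp_ge hp, gp_ge hq]
      omega

theorem gp_mono (n : ℕ) : Monotone (gp n) := by
  intro p q hpq
  rcases hpq.lt_or_eq with h | h
  · rcases gp_lex (n := n) h with h1 | h1
    · exact h1.le
    · exact h1.1.le
  · rw [h]

/-- positions of the block `i`. -/
theorem gp_block {n i k : ℕ} (hi : i < 2 * n) (hk : k < n) :
    gp n ((n + 1) * i + 1 + k) = 2 * i + 1 ∧ kp n ((n + 1) * i + 1 + k) = k := by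
  have h1 : ((n + 1) * i + 1 + k) / (n + 1) = i := by
    rw [show (n + 1) * i + 1 + k = (1 + k) + (n + 1) * i by ring,
      Nat.add_mul_div_left _ _ (Nat.succ_pos n), Nat.div_eq_of_lt (by omega), zero_add]
  have h2 : ((n + 1) * i + 1 + k) % (n + 1) = 1 + k := by
    rw [show (n + 1) * i + 1 + k = (1 + k) + (n + 1) * i by ring, Nat.add_mul_mod_self_left,
      Nat.mod_eq_of_lt (by omega)]
  unfold gp kp
  rw [h1, h2, if_pos hi, if_pos hi, if_neg (by omega)]
  exact ⟨rfl, by omega⟩

theorem kp_odd {n p : ℕ} (hn : 1 ≤ n) (h : kp n p ≠ 0) : ∃ i < 2 * n, gp n p = 2 * i + 1 ∧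
    kp n p < n := by
  by_cases h1 : p / (n + 1) < 2 * n
  · refine ⟨p / (n + 1), h1, ?_, ?_⟩
    · unfold kp at h
      rw [if_pos h1] at h
      unfold gp
      rw [if_pos h1, if_neg (by omega)]
    · unfold kp
      rw [if_pos h1]
      have h3 : p % (n + 1) < n + 1 := Nat.mod_lt p (by omega)
      unfold kp at h
      rw [if_pos h1] at h
      omega
  · unfold kp at h
    rw [if_neg h1] at h
    exact absurd rfl h

/-- the sites. -/
noncomputable def ys (n : ℕ) (ζ : ℕ → ℝ) (j : ℕ) : ℝ :=
  if j < 4 * n then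
    (if j % 2 = 1 then ζ (j / 2) else if j = 0 then ζ 0 - 1 else (ζ (j / 2 - 1) + ζ (j / 2)) / 2)
  else ζ (2 * n - 1) + (j - 4 * n + 1)

theorem ys_strict {n : ℕ} (hn : 1 ≤ n) {ζ : ℕ → ℝ} (hζ : ∀ i, i + 1 < 2 * n → ζ i < ζ (i + 1)) :
    StrictMono (ys n ζ) := by
  refine strictMono_nat_of_lt_succ fun j => ?_
  by_cases h1 : j + 1 < 4 * n
  · have h0 : j < 4 * n := by omega
    unfold ys
    rw [if_pos h0, if_pos h1]
    by_cases hodd : j % 2 = 1
    · rw [if_pos hodd, if_neg (by omega : ¬ (j + 1) % 2 = 1), if_neg (by omega : ¬ j + 1 = 0)]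
      have e1 : (j + 1) / 2 = j / 2 + 1 := by omega
      have e2 : (j + 1) / 2 - 1 = j / 2 := by omega
      rw [e2, e1]
      have := hζ (j / 2) (by omega)
      linarith
    · rw [if_neg hodd, if_pos (by omega : (j + 1) % 2 = 1)]
      by_cases hj : j = 0
      · subst hj
        simp
      · rw [if_neg hj]
        have e1 : (j + 1) / 2 = j / 2 := by omega
        rw [e1]
        have := hζ (j / 2 - 1) (by omega)
        rw [show j / 2 - 1 + 1 = j / 2 by omega] at this
        linarith
  · unfold ys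
    rw [if_neg h1]
    by_cases h0 : j < 4 * n
    · have hj : j = 4 * n - 1 := by omega
      rw [if_pos h0, if_pos (by omega : j % 2 = 1)]
      have e1 : j / 2 = 2 * n - 1 := by omega
      rw [e1]
      have e2 : ((j + 1 : ℕ) : ℝ) = 4 * n := by
        have : j + 1 = 4 * n := by omega
        rw [this]; push_cast; ring
      rw [e2]
      linarith
    · rw [if_neg h0]
      push_cast
      linarith

theorem ys_odd {n : ℕ} (ζ : ℕ → ℝ) {i : ℕ} (hi : i < 2 * n) : ys n ζ (2 * i + 1) = ζ i := by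
  unfold ys
  rw [if_pos (by omega), if_pos (by omega)]
  congr 1
  omega

/-- the choice of the windows. -/
def tau (n t : ℕ) : ℕ := if t < 6 * n then (n + 1) * (t / 3) + t % 3 else 2 * n * (n + 1) + (t - 6 * n)

theorem tau_strict {n : ℕ} (hn : 2 ≤ n) : StrictMono (tau n) := by
  refine strictMono_nat_of_lt_succ fun t => ?_
  unfold tau
  by_cases h1 : t + 1 < 6 * n
  · rw [if_pos (by omega : t < 6 * n), if_pos h1]
    by_cases h3 : t % 3 = 2
    · have e1 : (t + 1) / 3 = t / 3 + 1 := by omega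
      have e2 : (t + 1) % 3 = 0 := by omega
      rw [e1, e2, h3, Nat.mul_add]
      omega
    · have e1 : (t + 1) / 3 = t / 3 := by omega
      have e2 : (t + 1) % 3 = t % 3 + 1 := by omega
      rw [e1, e2]
      omega
  · rw [if_neg h1]
    by_cases h0 : t < 6 * n
    · rw [if_pos h0]
      have e0 : t = 6 * n - 1 := by omega
      have e1 : t / 3 = 2 * n - 1 := by omega
      have e2 : t % 3 = 2 := by omega
      rw [e1, e2]
      obtain ⟨q, rfl⟩ : ∃ q, n = q + 2 := ⟨n - 2, by omega⟩
      have e3 : 2 * (q + 2) - 1 = 2 * q + 3 := by omega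
      have e4 : t + 1 - 6 * (q + 2) = 0 := by omega
      rw [e3, e4]
      ring_nf
      omega
    · rw [if_neg h0]
      omega

theorem tau_le {n m t : ℕ} (hn : 2 ≤ n) (ht : t < 6 * n + m) (hm : 1 ≤ m) :
    tau n t ≤ 2 * n * (n + 1) + m - 1 := by
  have h1 : tau n t ≤ tau n (6 * n + m - 1) := (tau_strict hn).monotone (by omega)
  have h2 : tau n (6 * n + m - 1) = 2 * n * (n + 1) + (m - 1) := by
    unfold tau
    rw [if_neg (by omega)]
    congr 1
    omega
  omega

theorem tau_block {n i : ℕ} (hi : i < 2 * n) :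
    tau n (3 * i) = (n + 1) * i ∧ tau n (3 * i + 1) = (n + 1) * i + 1 := by
  unfold tau
  have e1 : 3 * i / 3 = i := by omega
  have e2 : 3 * i % 3 = 0 := by omega
  have e3 : (3 * i + 1) / 3 = i := by omega
  have e4 : (3 * i + 1) % 3 = 1 := by omega
  rw [if_pos (by omega), if_pos (by omega), e1, e2, e3, e4]
  exact ⟨rfl, rfl⟩

end TD
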