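import Pool.Agent.TR.Curve

/-!
# TD = total reality for convex curves, `d = 2` : definitions

`Jet m γ Nm v`: at every parameter `z` the curve `γ` has a Peano expansion of order `Nm z - 1` with
independent coefficients `v z 0 = γ z, v z 1, ..., v z (Nm z - 1)`.
-/

set_option autoImplicit false

open Topology Filter Asymptotics

namespace TD

structure Jet (m : ℕ) (γ : ℝ → Fin m → ℝ) (Nm : ℝ → ℕ) (v : ℝ → ℕ → Fin m → ℝ) : Prop where
  one : ∀ z, 1 ≤ Nm z
  zero : ∀ z, v z 0 = γ z
  exp : ∀ z, (fun t => γ t - ∑ l ∈ Finset.range (Nm z), (t - z) ^ l • v z l) =o[𝓝 z]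
    fun t => (t - z) ^ (Nm z - 1)
  ind : ∀ z, LinearIndependent ℝ fun l : Fin (Nm z) => v z l

/-- the number of smaller indices in the same group. -/
def rho {m : ℕ} (grp : Fin m → ℕ) (r : Fin m) : ℕ :=
  (Finset.univ.filter fun s => s < r ∧ grp s = grp r).card

end TD
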