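import Pool.Agent.Helper65.TD.ASM

/-!
# TD FIN : total reality for `d = 2`
-/

set_option autoImplicit false

open Topology Filter Matrix Submodule

namespace TD

variable {m n : ℕ} {γ : ℝ → Fin m → ℝ}

/-- Taylor coefficients. -/
noncomputable def tv (γ : ℝ → Fin m → ℝ) (t : ℝ) (l : ℕ) : Fin m → ℝ :=
  ((l.factorial : ℝ)⁻¹) • iteratedDeriv l γ t

theorem curve_ne (hγ : TR.ConvexCurve m γ) (hm : 1 ≤ m) (t : ℝ) : γ t ≠ 0 := by
  have h := hγ.2 (fun i => t + (i : ℕ)) (fun i j hij => by
    simp only [add_right_inj, Nat.cast_inj] at hij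
    exact Fin.ext hij)
  have h2 := h.ne_zero ⟨0, hm⟩
  simpa using h2

/-- independence of the derivatives from the dimension of the osculating plane. -/
theorem deriv_indep {t : ℝ} (h : Module.finrank ℂ (TR.osc m n γ t) = n) :
    LinearIndependent ℝ fun l : Fin n => iteratedDeriv l γ t := by
  have h1 : LinearIndependent ℂ fun l : Fin n => TR.cxv (iteratedDeriv l γ t) := by
    rw [linearIndependent_iff_card_eq_finrank_span, Fintype.card_fin]
    exact h.symm
  rw [Fintype.linearIndependent_iff] at h1 ⊢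
  intro g hg i
  have h2 := h1 (fun l => (g l : ℂ)) (by
    have h3 : TR.cxv (∑ l, g l • iteratedDeriv l γ t) = 0 := by
      rw [hg]; funext j; simp [TR.cxv]
    rw [TR.cxv_sum] at h3
    rw [← h3]
    refine Finset.sum_congr rfl fun l _ => ?_
    funext j
    simp [TR.cxv]) i
  exact_mod_cast h2

open Classical in
/-- the jets of the curve. -/
theorem jet_of (hγ : TR.ConvexCurve m γ) (hm : 1 ≤ m) (hn : 1 ≤ n) (S : Set ℝ)
    (hS : ∀ t ∈ S, Module.finrank ℂ (TR.osc m n γ t) = n) :
    Jet m γ (fun t => if t ∈ S then n else 1) (tv γ) where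
  one t := by split_ifs <;> omega
  zero t := by simp [tv]
  exp t := by
    refine peano (by split_ifs <;> omega) hγ.1.continuousAt fun l hl => ?_
    split_ifs at hl with h
    · exact (deriv_indep (hS t h)).ne_zero ⟨l, hl⟩
    · have : l = 0 := by omega
      subst this
      rw [iteratedDeriv_zero]
      exact curve_ne hγ hm t
  ind t := by
    have key : ∀ N : ℕ, (LinearIndependent ℝ fun l : Fin N => iteratedDeriv l γ t) →
        LinearIndependent ℝ fun l : Fin N => tv γ t l := by
      intro N hN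
      have h2 := hN.units_smul (fun l : Fin N =>
        Units.mk0 (((l : ℕ).factorial : ℝ)⁻¹) (inv_ne_zero (by positivity)))
      exact h2
    have h2 : ∀ N : ℕ, (t ∈ S ∧ N = n) ∨ N = 1 →
        LinearIndependent ℝ fun l : Fin N => iteratedDeriv l γ t := by
      rintro N (⟨h, rfl⟩ | rfl)
      · exact deriv_indep (hS t h)
      · rw [linearIndependent_unique_iff]
        simp only [Fin.default_eq_zero, Fin.isValue, Fin.val_zero, iteratedDeriv_zero]
        exact curve_ne hγ hm t
    refine key _ (h2 _ ?_)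
    by_cases h : t ∈ S
    · exact Or.inl ⟨h, if_pos h⟩
    · exact Or.inr (if_neg h)

open Classical in
/-- the columns. -/
noncomputable def col (γ : ℝ → Fin m → ℝ) (n : ℕ) (ζ : ℕ → ℝ) (S : Set ℝ) (h : ℝ) (p : ℕ) :
    Fin m → ℝ :=
  ∑ l ∈ Finset.range (if ys n ζ (gp n p) ∈ S then n else 1),
    ((kp n p : ℕ) * h) ^ l • tv γ (ys n ζ (gp n p)) l

open Classical in
theorem col_tp (hγ : TR.ConvexCurve m γ) (hm : 1 ≤ m) (hn : 1 ≤ n) {ζ : ℕ → ℝ}
    (hζ : ∀ i, i + 1 < 2 * n → ζ i < ζ (i + 1)) {S : Set ℝ} (hζS : ∀ i < 2 * n, ζ i ∈ S)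
    (hS : ∀ t ∈ S, Module.finrank ℂ (TR.osc m n γ t) = n) {ε : ℝ} (hε : ε = 1 ∨ ε = -1)
    (hpos : ∀ t : Fin m → ℝ, StrictMono t → 0 < ε * Matrix.det (fun i => γ (t i))) (L : ℕ) :
    ∃ h : ℝ, 0 < h ∧ ∀ σ : Fin m → ℕ, StrictMono σ → (∀ i, σ i < L) →
      0 < ε * Matrix.det (fun i => col γ n ζ S h (σ i)) := by
  have hJ := jet_of hγ hm hn S hS
  have hy := ys_strict hn hζ
  have key : ∀ σ : Fin m → Fin L, StrictMono (fun i => (σ i : ℕ)) →
      ∀ᶠ h : ℝ in 𝓝[>] 0, 0 < ε * Matrix.det (fun i => col γ n ζ S h (σ i)) := by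
    intro σ hσ
    refine taylor_tp hγ hJ hε hpos hy (grp := fun r => gp n (σ r)) (k := fun r => kp n (σ r))
      ((gp_mono n).comp hσ.monotone) ?_ ?_
    · intro r s hrs he
      rcases gp_lex (n := n) (hσ hrs) with h1 | h1
      · exact absurd he h1.ne
      · exact h1.2
    · intro r
      by_cases h0 : kp n (σ r) = 0
      · simp only [h0]
        split_ifs <;> omega
      · obtain ⟨i, hi, h1, h2⟩ := kp_odd hn h0
        simp only [h1, ys_odd ζ hi, if_pos (hζS i hi)]
        exact h2
  have hfin : ∀ᶠ h : ℝ in 𝓝[>] 0, ∀ σ : Fin m → Fin L, StrictMono (fun i => (σ i : ℕ)) →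
      0 < ε * Matrix.det (fun i => col γ n ζ S h (σ i)) := by
    rw [Filter.eventually_all]
    intro σ
    by_cases hσ : StrictMono (fun i => (σ i : ℕ))
    · exact (key σ hσ).mono fun h hh _ => hh
    · exact Eventually.of_forall fun h hh => absurd hh hσ
  obtain ⟨h, h1, h2⟩ := (hfin.and self_mem_nhdsWithin).exists
  exact ⟨h, h2, fun σ hσ hL => h1 (fun i => ⟨σ i, hL i⟩) hσ⟩

/-- a functional which kills the Taylor polynomial at enough nodes kills the coefficients. -/
theorem kill {v : ℕ → Fin m → ℝ} {h : ℝ} (hh : 0 < h) {φ : Fin m → ℝ}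
    (hk : ∀ k < n, φ ⬝ᵥ (∑ l ∈ Finset.range n, ((k : ℕ) * h) ^ l • v l) = 0) {l : ℕ} (hl : l < n) :
    φ ⬝ᵥ v l = 0 := by
  let P : Polynomial ℝ := ∑ l ∈ Finset.range n, Polynomial.C (φ ⬝ᵥ v l) * Polynomial.X ^ l
  have hP : P = 0 := by
    by_contra hne
    have hdeg : P.natDegree < n := by
      refine lt_of_le_of_lt (Polynomial.natDegree_sum_le_of_forall_le (n := n - 1) _ _ ?_) (by omega)
      intro i hi
      rw [Finset.mem_range] at hi
      exact (Polynomial.natDegree_C_mul_X_pow_le _ _).trans (by omega)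
    have hroots : (Finset.univ.image fun k : Fin n => ((k : ℕ) : ℝ) * h).card ≤ P.natDegree := by
      refine Polynomial.card_le_degree_of_subset_roots ?_
      intro x hx
      simp only [Finset.image_val, Multiset.mem_dedup, Multiset.mem_map, Finset.mem_val,
        Finset.mem_univ, true_and] at hx
      obtain ⟨k, rfl⟩ := hx
      rw [Polynomial.mem_roots hne, Polynomial.IsRoot.def]
      have := hk k k.2
      rw [dotProduct_sum] at this
      simp only [P, Polynomial.eval_finsetSum, Polynomial.eval_mul, Polynomial.eval_C,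
        Polynomial.eval_pow, Polynomial.eval_X]
      rw [← this]
      refine Finset.sum_congr rfl fun l _ => ?_
      rw [dotProduct_smul, smul_eq_mul, mul_comm]
    rw [Finset.card_image_of_injective, Finset.card_univ, Fintype.card_fin] at hroots
    · omega
    · intro a b hab
      have := mul_right_cancel₀ hh.ne' hab
      exact Fin.ext (by exact_mod_cast this)
  have h2 : P.coeff l = φ ⬝ᵥ v l := by
    simp only [P, Polynomial.finsetSum_coeff, Polynomial.coeff_C_mul, Polynomial.coeff_X_pow]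
    rw [Finset.sum_eq_single l]
    · simp
    · intro b _ hb
      simp [Ne.symm hb]
    · intro h
      exact absurd (Finset.mem_range.mpr hl) h
  rw [← h2, hP, Polynomial.coeff_zero]

theorem dot_cxv (x y : Fin m → ℝ) : TR.cxv x ⬝ᵥ TR.cxv y = ((x ⬝ᵥ y : ℝ) : ℂ) := by
  simp [TR.cxv, dotProduct]

/-- the complement of an osculating plane. -/
theorem perp_osc (hmn : m = n + 2) {t : ℝ} (hosc : Module.finrank ℂ (TR.osc m n γ t) = n)
    {a b : Fin m → ℝ} (hab : LinearIndependent ℝ ![a, b])
    (ha : ∀ l < n, a ⬝ᵥ iteratedDeriv l γ t = 0) (hb : ∀ l < n, b ⬝ᵥ iteratedDeriv l γ t = 0) :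
    perp (TR.osc m n γ t) = span ℂ {TR.cxv a, TR.cxv b} := by
  have hle : span ℂ {TR.cxv a, TR.cxv b} ≤ perp (TR.osc m n γ t) := by
    rw [span_le]
    have key : ∀ c : Fin m → ℝ, (∀ l < n, c ⬝ᵥ iteratedDeriv l γ t = 0) →
        TR.cxv c ∈ perp (TR.osc m n γ t) := by
      intro c hc y hy
      unfold TR.osc at hy
      induction hy using Submodule.span_induction with
      | mem x hx =>
        obtain ⟨l, rfl⟩ := hx
        rw [dot_cxv, hc l l.2]
        simp
      | zero => simp
      | add x y _ _ hx hy => rw [dotProduct_add, hx, hy, add_zero]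
      | smul c x _ hx => rw [dotProduct_smul, hx, smul_zero]
    rintro x (rfl | rfl)
    · exact key a ha
    · exact key b hb
  have h1 := perp_finrank (TR.osc m n γ t)
  have h2 : Module.finrank ℂ (span ℂ {TR.cxv a, TR.cxv b}) = 2 := by
    have h3 := finrank_span_eq_card (TR.cxv_pair hab)
    rw [Fintype.card_fin, Matrix.range_cons, Matrix.range_cons, Matrix.range_empty,
      Set.union_empty] at h3
    exact h3
  refine (Submodule.eq_of_le_of_finrank_eq hle ?_).symm
  rw [h2]
  omega

/-- the main theorem, `m = n + 2 ≥ 4`. -/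
theorem total (hn : 2 ≤ n) (hmn : m = n + 2) (hγ : TR.ConvexCurve m γ) {N : ℕ} (hN : N = 2 * n)
    (z : Fin N → ℝ) (hz : Function.Injective z)
    (hosc : ∀ i, Module.finrank ℂ (TR.osc m n γ (z i)) = n) :
    (TR.Schubert m 2 γ z).ncard = catalan n ∧ ∀ V ∈ TR.Schubert m 2 γ z, TR.IsRealSub V := by
  classical
  subst hN
  obtain ⟨ζ0, hd0, hz1, hz2⟩ := TR.exists_sorted z hz
  let ζ : ℕ → ℝ := fun i => ζ0 (2 * n - 1 - i)
  have hζ : ∀ i, i + 1 < 2 * n → ζ i < ζ (i + 1) := by
    intro i hi
    have := hd0 (2 * n - 1 - (i + 1)) (by omega)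
    rw [show 2 * n - 1 - (i + 1) + 1 = 2 * n - 1 - i by omega] at this
    exact this
  have hζ1 : ∀ i < 2 * n, ∃ j, z j = ζ i := fun i hi => hz1 _ (by omega)
  have hζ2 : ∀ j, ∃ i < 2 * n, z j = ζ i := by
    intro j
    obtain ⟨i, hi, he⟩ := hz2 j
    refine ⟨2 * n - 1 - i, by omega, ?_⟩
    show z j = ζ0 (2 * n - 1 - (2 * n - 1 - i))
    rw [he]
    congr 1
    omega
  let S : Set ℝ := Set.range z
  have hS : ∀ t ∈ S, Module.finrank ℂ (TR.osc m n γ t) = n := by
    rintro t ⟨j, rfl⟩
    exact hosc j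
  have hζS : ∀ i < 2 * n, ζ i ∈ S := fun i hi => by
    obtain ⟨j, hj⟩ := hζ1 i hi
    exact ⟨j, hj⟩
  obtain ⟨ε, hε, hpos⟩ := TR.sign_const hγ
  set M := 2 * n * (n + 1) + m - 1 with hM
  obtain ⟨h, hh, hcol⟩ := col_tp hγ (by omega) (by omega) hζ hζS hS hε hpos (M + m)
  obtain ⟨B, ε', hε', hB, hkill⟩ := dual_windows (M := M) (by omega) (col γ n ζ S h) hε hcol
  let G : ℕ → Fin m → ℝ := fun t => B (tau n t)
  have hG := tp_real (m := m) (by omega) G hε' (fun σ hσ hL => by
    refine hB (fun i => tau n (σ i)) ((tau_strict hn).comp hσ) fun i => ?_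
    have h1 := hL i
    rw [hM]
    refine tau_le hn ?_ (by omega)
    rw [hmn] at h1 ⊢
    omega)
  have e2 : m - 2 = n := by omega
  rw [e2] at hG
  -- the complements of the osculating planes
  have hW : ∀ i < 2 * n, perp (TR.osc m n γ (ζ i)) =
      span ℂ {TR.cxv (G (3 * i)), TR.cxv (G (3 * i + 1))} := by
    intro i hi
    have hblock : ∀ k < n, col γ n ζ S h ((n + 1) * i + 1 + k) =
        ∑ l ∈ Finset.range n, ((k : ℕ) * h) ^ l • tv γ (ζ i) l := by
      intro k hk
      obtain ⟨h1, h2⟩ := gp_block hi hk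
      unfold col
      rw [h1, h2, ys_odd ζ hi, if_pos (hζS i hi)]
    have hbound : (n + 1) * i + (n + 1) ≤ 2 * n * (n + 1) := by
      calc (n + 1) * i + (n + 1) = (n + 1) * (i + 1) := by ring
        _ ≤ (n + 1) * (2 * n) := Nat.mul_le_mul_left _ (by omega)
        _ = 2 * n * (n + 1) := by ring
    obtain ⟨t1, t2⟩ := tau_block (n := n) hi
    have hfac : ∀ (φ : Fin m → ℝ), (∀ l < n, φ ⬝ᵥ tv γ (ζ i) l = 0) →
        ∀ l < n, φ ⬝ᵥ iteratedDeriv l γ (ζ i) = 0 := by
      intro φ hφ l hl
      have := hφ l hl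
      unfold tv at this
      rw [dotProduct_smul, smul_eq_mul] at this
      exact (mul_eq_zero.mp this).resolve_left (inv_ne_zero (by positivity))
    refine perp_osc hmn ?_ ?_ (hfac _ fun l hl => ?_) (hfac _ fun l hl => ?_)
    · obtain ⟨j, hj⟩ := hζ1 i hi
      rw [← hj]
      exact hosc j
    · have h3 := hB (fun r : Fin m => (n + 1) * i + r) (fun a b hab => by
        have : (a : ℕ) < b := hab
        show (n + 1) * i + (a : ℕ) < (n + 1) * i + b
        omega) (fun r => by have := r.2; omega)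
      have h4 : Matrix.det (fun r : Fin m => B ((n + 1) * i + r)) ≠ 0 := by
        intro h0; rw [h0, mul_zero] at h3; exact lt_irrefl _ h3
      have h5 : LinearIndependent ℝ (fun r : Fin m => B ((n + 1) * i + r)) :=
        Matrix.linearIndependent_rows_of_det_ne_zero h4
      have h6 := h5.comp (![⟨0, by omega⟩, ⟨1, by omega⟩] : Fin 2 → Fin m) (by
        intro a b hab
        fin_cases a <;> fin_cases b <;> simp_all)
      have h7 : ((fun r : Fin m => B ((n + 1) * i + r)) ∘
          (![⟨0, by omega⟩, ⟨1, by omega⟩] : Fin 2 → Fin m)) = ![G (3 * i), G (3 * i + 1)] := by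
        funext a
        fin_cases a
        · simp [G, t1]
        · simp [G, t2]
      rw [h7] at h6
      exact h6
    · refine kill (n := n) hh (fun k hk => ?_) hl
      rw [← hblock k hk]
      show B (tau n (3 * i)) ⬝ᵥ _ = 0
      rw [t1, show (n + 1) * i + 1 + k = (n + 1) * i + (1 + k) by ring]
      exact hkill _ (by omega) _ (by omega)
    · refine kill (n := n) hh (fun k hk => ?_) hl
      rw [← hblock k hk]
      show B (tau n (3 * i + 1)) ⬝ᵥ _ = 0
      rw [t2]
      exact hkill _ (by omega) _ (by omega)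
  -- the correspondence
  have hcorr : ∀ V : Submodule ℂ (Fin m → ℂ), V ∈ TR.Schubert m 2 γ z ↔ perp V ∈ SolG m G := by
    intro V
    have h1 := perp_finrank V
    unfold TR.Schubert SolG
    rw [e2]
    simp only [Set.mem_ofPred_eq]
    constructor
    · rintro ⟨h2, h3⟩
      refine ⟨by omega, fun i hi => ?_⟩
      rw [← hW i hi]
      obtain ⟨j, hj⟩ := hζ1 i hi
      rw [← hj]
      refine (perp_meet ?_).1 (h3 j)
      rw [h2, hosc j]
      omega
    · rintro ⟨h2, h3⟩
      have h4 : Module.finrank ℂ V = 2 := by omega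
      refine ⟨h4, fun j => ?_⟩
      obtain ⟨i, hi, hj⟩ := hζ2 j
      refine (perp_meet ?_).2 ?_
      · rw [h4, hosc j]
        omega
      · rw [hj, hW i hi]
        exact h3 i hi
  have himg : perp '' TR.Schubert m 2 γ z = SolG m G := by
    ext V
    constructor
    · rintro ⟨V', hV', rfl⟩
      exact (hcorr V').1 hV'
    · intro hV
      refine ⟨perp V, (hcorr _).2 ?_, perp_perp V⟩
      rw [perp_perp]
      exact hV
  have hinj : Function.Injective (perp : Submodule ℂ (Fin m → ℂ) → Submodule ℂ (Fin m → ℂ)) := by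
    intro V V' hVV
    rw [← perp_perp V, ← perp_perp V', hVV]
  refine ⟨?_, fun V hV => ?_⟩
  · rw [← hG.1, ← himg, Set.ncard_image_of_injective _ hinj]
  · rw [← perp_perp V]
    exact perp_real (hG.2 _ ((hcorr V).1 hV))

end TD
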