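import Pool.Agent.Helper65.TD.Defs
import Pool.Agent.TR.Germ

/-!
# TD HM : independence of jets of a convex curve (all multiplicities)

This generalises `TR.herm` (Pool/Agent/TR/Herm.lean, multiplicities at most 2), same proof.

PROOF.  Strong induction on the excess `E = Σ_(z∈Z) (μ z - 1)` (for all `Z, μ, φ`).
`E = 0`: `μ = 1` on `Z`, `card Z = m`, the vectors `γ z`, `z ∈ Z`, are a basis, `φ = 0`.
`E ≥ 1`: suppose `φ ≠ 0`.  Fix `z ∈ Z` with `μ z ≥ 2`.
(i) `φ (γ t) ≠ 0` for `t ∉ Z`: otherwise `(Z ∪ {t}, μ with μ z replaced by μ z - 1, μ t = 1)` has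
smaller excess, so `φ = 0`.
(ii) `V = {v y l : y ∈ Z, l < μ y} \ {v z (μ z - 1)}` (`m - 1` vectors) is linearly independent:
with one more vector `γ t`, `t ∉ Z`, the `m` vectors have no common nonzero annihilator (induction),
so they are independent.  `V` is contained in the hyperplane `ker φ`, so it is a basis of it, and
`d = v z (μ z - 1) ∈ ker φ` is a combination `d = Σ c_w w`, `w ∈ V`.
(iii) some top vector `v0 = v y (μ y - 1)`, `y ∈ Z`, `y ≠ z`, has a nonzero coefficient.  Otherwise
`d` is a combination of `v z l`, `l < μ z - 1`, and of `v y l`, `l < μ y - 1`, `y ∈ Z \ {z}`.  If all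
`μ y = 1` for `y ≠ z` this contradicts the independence of `v z l`, `l < μ z` (`Jet.ind`).
Otherwise consider the multiplicities `μ z` at `z`, `μ y - 1` at `y ∈ Z \ {z}` (drop the points with
`μ y = 1`), and `card Z - 1` new simple points: total `m`, smaller excess, so by induction these
`m` vectors have no common nonzero annihilator, they are independent: contradiction.
(iv) Let `ξ` be a functional with `ξ v0 = 1` and `ξ = 0` on `V \ {v0}`; `ξ d = c ≠ 0`.  `H = φ ∘ γ`,
`X = ξ ∘ γ`.  Near `z`: `X t = c (t - z)^(μ z - 1) + o(..)`, `H t = o((t - z)^(μ z - 1))` (Peano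
expansion truncated to order `μ z - 1 ≤ Nm z - 1`).  Near `y`: `X t = (t - y)^(μ y - 1) + o(..)`,
`H t = o((t - y)^(μ y - 1))`.  `H ≠ 0` near `z`, `y` (punctured) by (i).  `TR.germ` (with the finite
set `Z`): `ε ≠ 0`, `t1 ≠ t2` not in `Z`, `(φ - ε ξ)(γ t_i) = 0`.  `φ - ε ξ` kills `V \ {v0}`, `γ t1`,
`γ t2` : multiplicities `μ z - 1`, `μ y - 1` (drop `y` if `μ y = 1`), `μ` at the other points, `1` at
`t1, t2`; total `m`, smaller excess; so `φ = ε ξ`, but `(φ - ε ξ) v0 = - ε ≠ 0`.  Contradiction.
-/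

set_option autoImplicit false

open Matrix

open Filter Topology Asymptotics

namespace TD

/-- Functionals killing the first `μ z` jet vectors at every `z`. -/
private def NK {m : ℕ} (v : ℝ → ℕ → Fin m → ℝ) (μ : ℝ →₀ ℕ) :
    Submodule ℝ ((Fin m → ℝ) →ₗ[ℝ] ℝ) where
  carrier := {φ | ∀ z, ∀ l < μ z, φ (v z l) = 0}
  zero_mem' := fun _ _ _ => rfl
  add_mem' := by
    intro a b ha hb z l hl
    rw [LinearMap.add_apply, ha z l hl, hb z l hl, add_zero]
  smul_mem' := by
    intro c a ha z l hl
    rw [LinearMap.smul_apply, ha z l hl, smul_zero]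

private theorem mem_NK {m : ℕ} {v : ℝ → ℕ → Fin m → ℝ} {μ : ℝ →₀ ℕ}
    {φ : (Fin m → ℝ) →ₗ[ℝ] ℝ} : φ ∈ NK v μ ↔ ∀ z, ∀ l < μ z, φ (v z l) = 0 := Iff.rfl

private theorem NK_mono {m : ℕ} {v : ℝ → ℕ → Fin m → ℝ} {μ μ' : ℝ →₀ ℕ} (h : ∀ z, μ' z ≤ μ z) :
    NK v μ ≤ NK v μ' := fun _ hφ z l hl => hφ z l (lt_of_lt_of_le hl (h z))

private theorem mem_NK_add {m : ℕ} {v : ℝ → ℕ → Fin m → ℝ} {μ : ℝ →₀ ℕ} {t : ℝ}
    {φ : (Fin m → ℝ) →ₗ[ℝ] ℝ} (h : φ ∈ NK v μ) (ht : φ (v t (μ t)) = 0) :
    φ ∈ NK v (μ + Finsupp.single t 1) := by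
  intro z l hl
  rw [Finsupp.add_apply] at hl
  by_cases hz : t = z
  · subst hz
    rw [Finsupp.single_eq_same] at hl
    rcases Nat.lt_succ_iff_lt_or_eq.mp hl with h1 | h1
    · exact h _ _ h1
    · rw [h1]; exact ht
  · rw [Finsupp.single_eq_of_ne (Ne.symm hz), add_zero] at hl
    exact h _ _ hl

private theorem finrank_dual' (m : ℕ) : Module.finrank ℝ ((Fin m → ℝ) →ₗ[ℝ] ℝ) = m := by
  have h := Subspace.dual_finrank_eq (K := ℝ) (V := Fin m → ℝ)
  rw [Module.finrank_fin_fun] at h
  exact h

private theorem NK_finrank {m : ℕ} (v : ℝ → ℕ → Fin m → ℝ) (μ : ℝ →₀ ℕ) :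
    m ≤ Module.finrank ℝ (NK v μ) + μ.degree := by
  classical
  let S : Finset (Σ _ : ℝ, ℕ) := μ.support.sigma fun z => Finset.range (μ z)
  let Φ : ((Fin m → ℝ) →ₗ[ℝ] ℝ) →ₗ[ℝ] (S → ℝ) :=
    LinearMap.pi (fun i => LinearMap.applyₗ (v i.1.1 i.1.2))
  have hker : LinearMap.ker Φ = NK v μ := by
    ext φ
    rw [LinearMap.mem_ker, mem_NK]
    constructor
    · intro h z l hl
      have hm : (⟨z, l⟩ : Σ _ : ℝ, ℕ) ∈ S := by
        rw [Finset.mem_sigma, Finset.mem_range, Finsupp.mem_support_iff]
        exact ⟨by show μ z ≠ 0; omega, hl⟩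
      exact congrFun h ⟨⟨z, l⟩, hm⟩
    · intro h
      funext i
      have hm := i.2
      rw [Finset.mem_sigma, Finset.mem_range] at hm
      exact h _ _ hm.2
  have h1 := LinearMap.finrank_range_add_finrank_ker Φ
  have h2 := Submodule.finrank_le (LinearMap.range Φ)
  rw [Module.finrank_fintype_fun_eq_card, Fintype.card_coe, Finset.card_sigma] at h2
  simp only [Finset.card_range] at h2
  rw [hker, finrank_dual'] at h1
  rw [Finsupp.degree_apply]
  omega

private theorem card_supp_le (μ : ℝ →₀ ℕ) : μ.support.card ≤ μ.degree := by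
  rw [Finsupp.degree_apply, Finset.card_eq_sum_ones]
  refine Finset.sum_le_sum (fun z hz => ?_)
  rw [Finsupp.mem_support_iff] at hz
  omega

/-- Peano expansion of a functional. -/
private theorem jet_tendsto {m : ℕ} {γ : ℝ → Fin m → ℝ} {Nm : ℝ → ℕ}
    {v : ℝ → ℕ → Fin m → ℝ} (hJ : Jet m γ Nm v) (ξ : (Fin m → ℝ) →ₗ[ℝ] ℝ) (z : ℝ) (k : ℕ)
    (hk : k < Nm z) (h0 : ∀ l < k, ξ (v z l) = 0) :
    Tendsto (fun t => ξ (γ t) / (t - z) ^ k) (𝓝[≠] z) (𝓝 (ξ (v z k))) := by
  have hexp := hJ.exp z
  have hO1 : ∀ j, k ≤ j → (fun t : ℝ => (t - z) ^ j) =O[𝓝 z] fun t => (t - z) ^ k := by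
    intro j hj
    have hc : (fun t : ℝ => (t - z) ^ (j - k)) =O[𝓝 z] fun _ => (1 : ℝ) := by
      have : Continuous fun t : ℝ => (t - z) ^ (j - k) := by fun_prop
      exact this.continuousAt.norm.isBoundedUnder_le.isBigO_one ℝ
    have h2 := hc.mul (isBigO_refl (fun t : ℝ => (t - z) ^ k) (𝓝 z))
    refine h2.congr (fun t => ?_) (fun t => one_mul _)
    rw [← pow_add]
    congr 1
    omega
  have ho : ∀ j, k < j → (fun t : ℝ => (t - z) ^ j) =o[𝓝 z] fun t => (t - z) ^ k := by
    intro j hj
    have hc : (fun t : ℝ => (t - z) ^ (j - k)) =o[𝓝 z] fun _ => (1 : ℝ) := by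
      rw [isLittleO_one_iff]
      have h1 : Continuous fun t : ℝ => (t - z) ^ (j - k) := by fun_prop
      have h2 := h1.tendsto z
      rwa [sub_self, zero_pow (by omega)] at h2
    have h2 := hc.mul_isBigO (isBigO_refl (fun t : ℝ => (t - z) ^ k) (𝓝 z))
    refine h2.congr (fun t => ?_) (fun t => one_mul _)
    rw [← pow_add]
    congr 1
    omega
  have h1 : (fun t => ξ (γ t - ∑ l ∈ Finset.range (Nm z), (t - z) ^ l • v z l)) =o[𝓝 z]
      fun t => (t - z) ^ k := by
    have h2 : (fun t => ξ (γ t - ∑ l ∈ Finset.range (Nm z), (t - z) ^ l • v z l)) =O[𝓝 z]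
        (fun t => γ t - ∑ l ∈ Finset.range (Nm z), (t - z) ^ l • v z l) :=
      ContinuousLinearMap.isBigO_comp (LinearMap.toContinuousLinearMap ξ)
        (fun t => γ t - ∑ l ∈ Finset.range (Nm z), (t - z) ^ l • v z l) (𝓝 z)
    exact (h2.trans_isLittleO hexp).trans_isBigO (hO1 _ (by omega))
  have h3 : (fun t => ξ (γ t) - (t - z) ^ k * ξ (v z k)) =o[𝓝 z] fun t => (t - z) ^ k := by
    have h4 : (fun t => ∑ l ∈ Finset.range (Nm z), if l = k then 0 else (t - z) ^ l * ξ (v z l))
        =o[𝓝 z] fun t => (t - z) ^ k := by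
      have hl : ∀ l : ℕ, (fun t : ℝ => if l = k then (0 : ℝ) else (t - z) ^ l * ξ (v z l))
          =o[𝓝 z] fun t : ℝ => (t - z) ^ k := ?_
      · exact IsLittleO.fun_sum (s := Finset.range (Nm z)) (fun l _ => hl l)
      intro l
      by_cases hlk : l = k
      · simp only [if_pos hlk]
        exact isLittleO_zero _ _
      · simp only [if_neg hlk]
        rcases lt_or_gt_of_ne hlk with h5 | h5
        · simp only [h0 l h5, mul_zero]
          exact isLittleO_zero _ _
        · have := (ho l h5).const_mul_left (ξ (v z l))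
          exact this.congr_left (fun t => mul_comm _ _)
    refine (h1.add h4).congr_left (fun t => ?_)
    rw [map_sub, map_sum]
    have h6 : ∑ l ∈ Finset.range (Nm z), ξ ((t - z) ^ l • v z l) =
        ∑ l ∈ Finset.range (Nm z), (if l = k then 0 else (t - z) ^ l * ξ (v z l)) +
          (t - z) ^ k * ξ (v z k) := by
      rw [← Finset.sum_ite_eq_of_mem (Finset.range (Nm z)) k
        (fun l => (t - z) ^ l * ξ (v z l)) (Finset.mem_range.2 hk), ← Finset.sum_add_distrib]
      refine Finset.sum_congr rfl (fun l _ => ?_)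
      rw [map_smul, smul_eq_mul]
      by_cases hlk : l = k
      · rw [if_pos hlk, if_pos hlk.symm, zero_add]
      · rw [if_neg hlk, if_neg (Ne.symm hlk), add_zero]
    rw [h6]
    ring
  have h7 := h3.tendsto_div_nhds_zero
  have h8 := (h7.mono_left (nhdsWithin_le_nhds (s := {z}ᶜ))).add_const (ξ (v z k))
  rw [zero_add] at h8
  refine h8.congr' ?_
  filter_upwards [self_mem_nhdsWithin] with t ht
  have ht' : (t - z) ^ k ≠ 0 := pow_ne_zero _ (sub_ne_zero.mpr ht)
  field_simp
  ring

private theorem quot_tendsto {m : ℕ} {γ : ℝ → Fin m → ℝ} {Nm : ℝ → ℕ}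
    {v : ℝ → ℕ → Fin m → ℝ} (hJ : Jet m γ Nm v) (φ ξ : (Fin m → ℝ) →ₗ[ℝ] ℝ) (z : ℝ) (k : ℕ)
    (hk : k < Nm z) (h0 : ∀ l < k, ξ (v z l) = 0) (h1 : ∀ l < k + 1, φ (v z l) = 0)
    (hne : ξ (v z k) ≠ 0) :
    Tendsto (fun t => φ (γ t) / ξ (γ t)) (𝓝[≠] z) (𝓝 0) ∧ ∀ᶠ t in 𝓝[≠] z, ξ (γ t) ≠ 0 := by
  have hφ := jet_tendsto hJ φ z k hk (fun l hl => h1 l (by omega))
  have hξ := jet_tendsto hJ ξ z k hk h0
  rw [h1 k (by omega)] at hφ
  constructor
  · have h3 := hφ.div hξ hne
    rw [zero_div] at h3
    refine h3.congr' ?_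
    filter_upwards [self_mem_nhdsWithin] with t ht
    have ht' : (t - z) ^ k ≠ 0 := pow_ne_zero _ (sub_ne_zero.mpr ht)
    simp only [Pi.div_apply]
    rw [div_div_div_cancel_right₀ ht']
  · filter_upwards [hξ.eventually_ne hne] with t ht h4
    rw [h4, zero_div] at ht
    exact ht rfl

private theorem punct (A : Finset ℝ) (z : ℝ) : ∀ᶠ t in 𝓝[≠] z, t ∉ A := by
  have hcl : IsClosed ((A.erase z : Finset ℝ) : Set ℝ) := (A.erase z).finite_toSet.isClosed
  have h1 : ∀ᶠ t in 𝓝[≠] z, t ∉ A.erase z :=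
    nhdsWithin_le_nhds (hcl.isOpen_compl.mem_nhds (by simp))
  filter_upwards [h1, self_mem_nhdsWithin] with t ht1 ht2 ht3
  exact ht1 (Finset.mem_erase.mpr ⟨ht2, ht3⟩)

/-- indicator of a finite set -/
private noncomputable def ind (T : Finset ℝ) : ℝ →₀ ℕ := ∑ t ∈ T, Finsupp.single t 1

private theorem ind_apply (T : Finset ℝ) (x : ℝ) : ind T x = if x ∈ T then 1 else 0 := by
  rw [ind, Finsupp.finsetSum_apply]
  simp only [Finsupp.single_apply]
  rw [Finset.sum_ite_eq']

private theorem ind_degree (T : Finset ℝ) : (ind T).degree = T.card := by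
  rw [ind, map_sum]
  simp

private theorem herm_aux {m : ℕ} {γ : ℝ → Fin m → ℝ} (hγ : TR.ConvexCurve m γ) {Nm : ℝ → ℕ}
    {v : ℝ → ℕ → Fin m → ℝ} (hJ : Jet m γ Nm v) (n : ℕ) : ∀ μ : ℝ →₀ ℕ, (∀ z, μ z ≤ Nm z) →
      μ.degree = m → m - μ.support.card = n → NK v μ = ⊥ := by
  induction n using Nat.strong_induction_on with
  | _ n ih =>
  intro μ hμN hdeg hn
  have ih' : ∀ μ' : ℝ →₀ ℕ, (∀ z, μ' z ≤ Nm z) → μ'.degree = m →
      μ.support.card < μ'.support.card → NK v μ' = ⊥ := by
    intro μ' h1 h2 h3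
    refine ih (m - μ'.support.card) ?_ μ' h1 h2 rfl
    have h4 := card_supp_le μ'
    omega
  by_cases hz : ∃ z, 2 ≤ μ z
  swap
  · -- all multiplicities at most `1`
    push Not at hz
    have hc : μ.support.card = m := by
      rw [← hdeg, Finsupp.degree_apply, Finset.card_eq_sum_ones]
      refine Finset.sum_congr rfl (fun z hzs => ?_)
      rw [Finsupp.mem_support_iff] at hzs
      have := hz z
      omega
    rw [eq_bot_iff]
    intro φ hφ
    rw [Submodule.mem_bot]
    let e := μ.support.equivFinOfCardEq hc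
    have hli := hγ.2 (fun i => ((e.symm i : μ.support) : ℝ))
      (fun i j h => e.symm.injective (Subtype.ext h))
    have hsp := hli.span_eq_top_of_card_eq_finrank' (by simp)
    refine LinearMap.ext_on_range hsp (fun i => ?_)
    rw [LinearMap.zero_apply, ← hJ.zero]
    have h5 := (e.symm i).2
    rw [Finsupp.mem_support_iff] at h5
    exact hφ _ 0 (by omega)
  obtain ⟨z, hz⟩ := hz
  by_contra hbot
  obtain ⟨φ, hφ, hφ0⟩ := Submodule.exists_mem_ne_zero_of_ne_bot hbot
  rw [mem_NK] at hφ
  have hzs : z ∈ μ.support := by rw [Finsupp.mem_support_iff]; omega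
  -- `μ1 = μ - single z 1`
  obtain ⟨μ1, hμ1⟩ : ∃ μ1 : ℝ →₀ ℕ, μ = μ1 + Finsupp.single z 1 :=
    ⟨μ - Finsupp.single z 1, (tsub_add_cancel_of_le (by
      rw [Finsupp.single_le_iff]; omega)).symm⟩
  have hμ1z : μ z = μ1 z + 1 := by rw [hμ1, Finsupp.add_apply, Finsupp.single_eq_same]
  have hμ1x : ∀ x, x ≠ z → μ x = μ1 x := by
    intro x hx
    rw [hμ1, Finsupp.add_apply, Finsupp.single_eq_of_ne hx, add_zero]
  have hμ1le : ∀ x, μ1 x ≤ μ x := by
    intro x
    rw [hμ1, Finsupp.add_apply]; omega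
  have hdeg1 : μ1.degree + 1 = m := by
    rw [← hdeg, hμ1, map_add, Finsupp.degree_single]
  have hφ1 : φ ∈ NK v μ1 := NK_mono hμ1le hφ
  have hμ1s : ∀ x, x ∈ μ.support → μ1 x ≠ 0 := by
    intro x hx
    rw [Finsupp.mem_support_iff] at hx
    by_cases hxz : x = z
    · subst hxz; omega
    · rw [← hμ1x x hxz]; exact hx
  have hμ1t : ∀ x, x ∉ μ.support → μ1 x = 0 := by
    intro x hx
    rw [Finsupp.notMem_support_iff] at hx
    have := hμ1le x
    omega
  -- (i)
  have hno : ∀ t, t ∉ μ.support → ∀ κ ∈ NK v μ1, κ (γ t) = 0 → κ = 0 := by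
    intro t ht κ hκ hκt
    have hb : NK v (μ1 + Finsupp.single t 1) = ⊥ := by
      refine ih' _ (fun x => ?_) ?_ ?_
      · rw [Finsupp.add_apply]
        by_cases hxt : x = t
        · subst hxt
          rw [Finsupp.single_eq_same, hμ1t x ht]
          exact hJ.one x
        · rw [Finsupp.single_eq_of_ne hxt, add_zero]
          exact (hμ1le x).trans (hμN x)
      · rw [map_add, Finsupp.degree_single, hdeg1]
      · have hsub : insert t μ.support ⊆ (μ1 + Finsupp.single t 1).support := by
          intro x hx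
          rw [Finsupp.mem_support_iff, Finsupp.add_apply]
          rcases Finset.mem_insert.mp hx with rfl | hx
          · rw [Finsupp.single_eq_same]; omega
          · have := hμ1s x hx
            omega
        have := Finset.card_le_card hsub
        rw [Finset.card_insert_of_notMem ht] at this
        omega
    have : κ ∈ NK v (μ1 + Finsupp.single t 1) := by
      refine mem_NK_add hκ ?_
      rw [hμ1t t ht, hJ.zero]
      exact hκt
    rw [hb, Submodule.mem_bot] at this
    exact this
  have hφt : ∀ t, t ∉ μ.support → φ (γ t) ≠ 0 := fun t ht h0 => hφ0 (hno t ht φ hφ1 h0)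
  obtain ⟨t0, ht0⟩ := Infinite.exists_notMem_finset μ.support
  have hone : ∀ κ ∈ NK v μ1, ∃ c : ℝ, κ = c • φ := by
    intro κ hκ
    refine ⟨κ (γ t0) / φ (γ t0), ?_⟩
    have h3 : κ - (κ (γ t0) / φ (γ t0)) • φ = 0 := by
      refine hno t0 ht0 _ (Submodule.sub_mem _ hκ (Submodule.smul_mem _ _ hφ1)) ?_
      rw [LinearMap.sub_apply, LinearMap.smul_apply, smul_eq_mul,
        div_mul_cancel₀ _ (hφt t0 ht0), sub_self]
    exact sub_eq_zero.mp h3
  have hφd : φ (v z (μ1 z)) = 0 := hφ z _ (by omega)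
  -- `μ2 y = μ1 - single y 1`
  have hμ2 : ∀ y ∈ μ.support.erase z, ∃ μ2 : ℝ →₀ ℕ, μ1 = μ2 + Finsupp.single y 1 := by
    intro y hy
    refine ⟨μ1 - Finsupp.single y 1, (tsub_add_cancel_of_le ?_).symm⟩
    rw [Finsupp.single_le_iff]
    have := hμ1s y (Finset.mem_of_mem_erase hy)
    omega
  have hξex : ∀ y ∈ μ.support.erase z, ∀ μ2 : ℝ →₀ ℕ, μ1 = μ2 + Finsupp.single y 1 →
      ∃ ξ ∈ NK v μ2, ξ (v y (μ2 y)) ≠ 0 := by
    intro y hy μ2 h2
    by_contra hcon
    push Not at hcon
    have hsub : NK v μ2 ≤ Submodule.span ℝ {φ} := by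
      intro κ hκ
      have : κ ∈ NK v μ1 := by
        rw [h2]
        exact mem_NK_add hκ (hcon κ hκ)
      obtain ⟨c, hc⟩ := hone κ this
      exact Submodule.mem_span_singleton.mpr ⟨c, hc.symm⟩
    have h3 := Submodule.finrank_mono hsub
    rw [finrank_span_singleton hφ0] at h3
    have h4 := NK_finrank v μ2
    have h5 : μ2.degree + 1 = μ1.degree := by
      rw [h2, map_add, Finsupp.degree_single]
    omega
  -- (iii)
  have hgood : ∃ y ∈ μ.support.erase z, ∃ μ2 : ℝ →₀ ℕ, μ1 = μ2 + Finsupp.single y 1 ∧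
      ∃ ξ ∈ NK v μ2, ξ (v z (μ1 z)) ≠ 0 := by
    by_contra hcon
    push Not at hcon
    choose! M2 hM2 using hμ2
    choose! Ξ hΞ1 hΞ2 using fun y hy => hξex y hy (M2 y) (hM2 y hy)
    have hle : ind (μ.support.erase z) ≤ μ1 := by
      intro x
      rw [ind_apply]
      split_ifs with hx
      · have := hμ1s x (Finset.mem_of_mem_erase hx)
        omega
      · omega
    obtain ⟨ν, hν⟩ : ∃ ν : ℝ →₀ ℕ, μ1 = ν + ind (μ.support.erase z) :=
      ⟨μ1 - ind (μ.support.erase z), (tsub_add_cancel_of_le hle).symm⟩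
    have hνz : ν z = μ1 z := by
      rw [hν, Finsupp.add_apply, ind_apply, if_neg (Finset.notMem_erase z _), add_zero]
    have hνy : ∀ y ∈ μ.support.erase z, μ1 y = ν y + 1 := by
      intro y hy
      rw [hν, Finsupp.add_apply, ind_apply, if_pos hy]
    have hνt : ∀ x, x ∉ μ.support → ν x = 0 := by
      intro x hx
      have h1 := hμ1t x hx
      rw [hν, Finsupp.add_apply] at h1
      omega
    have hνdeg : ν.degree + (μ.support.erase z).card + 1 = m := by
      rw [← hdeg1, hν, map_add, ind_degree]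
    have hkill : ∀ κ ∈ NK v ν, κ (v z (μ1 z)) = 0 := by
      intro κ hκ
      have hin : κ - ∑ y ∈ μ.support.erase z, (κ (v y (ν y)) / Ξ y (v y (ν y))) • Ξ y ∈
          NK v μ1 := by
        intro x l hl
        rw [LinearMap.sub_apply, LinearMap.sum_apply]
        simp only [LinearMap.smul_apply, smul_eq_mul]
        have hM2x : ∀ y ∈ μ.support.erase z, y ≠ x → M2 y x = μ1 x := by
          intro y hy hyx
          conv_rhs => rw [hM2 y hy]
          rw [Finsupp.add_apply, Finsupp.single_eq_of_ne (Ne.symm hyx), add_zero]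
        have hM2y : ∀ y ∈ μ.support.erase z, M2 y y = ν y := by
          intro y hy
          have h1 := hνy y hy
          have h2 : μ1 y = M2 y y + 1 := by
            conv_lhs => rw [hM2 y hy]
            rw [Finsupp.add_apply, Finsupp.single_eq_same]
          omega
        by_cases hx : x ∈ μ.support.erase z
        · have h1 := hνy x hx
          by_cases hlx : l = ν x
          · subst hlx
            rw [Finset.sum_eq_single x]
            · have hne : Ξ x (v x (ν x)) ≠ 0 := by
                have := hΞ2 x hx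
                rwa [hM2y x hx] at this
              rw [div_mul_cancel₀ _ hne, sub_self]
            · intro y hy hyx
              rw [mem_NK.mp (hΞ1 y hy) x (ν x) (by rw [hM2x y hy hyx]; exact hl), mul_zero]
            · intro h; exact absurd hx h
          · have hl' : l < ν x := by omega
            rw [hκ x l hl', Finset.sum_eq_zero, sub_zero]
            intro y hy
            have : Ξ y (v x l) = 0 := by
              refine mem_NK.mp (hΞ1 y hy) x l ?_
              by_cases hyx : y = x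
              · subst hyx; rw [hM2y y hy]; exact hl'
              · rw [hM2x y hy hyx]; exact hl
            rw [this, mul_zero]
        · have hl' : l < ν x := by
            rw [hν, Finsupp.add_apply, ind_apply, if_neg hx, add_zero] at hl
            exact hl
          rw [hκ x l hl', Finset.sum_eq_zero, sub_zero]
          intro y hy
          have : Ξ y (v x l) = 0 := by
            refine mem_NK.mp (hΞ1 y hy) x l ?_
            have hyx : y ≠ x := fun h => hx (h ▸ hy)
            rw [hM2x y hy hyx]; exact hl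
          rw [this, mul_zero]
      obtain ⟨c, hc⟩ := hone _ hin
      have h1 := LinearMap.congr_fun hc (v z (μ1 z))
      rw [LinearMap.sub_apply, LinearMap.sum_apply, LinearMap.smul_apply, hφd, smul_zero,
        sub_eq_zero] at h1
      rw [h1]
      refine Finset.sum_eq_zero (fun y hy => ?_)
      rw [LinearMap.smul_apply, hcon y hy (M2 y) (hM2 y hy) (Ξ y) (hΞ1 y hy), smul_zero]
    by_cases hbig : ∃ y ∈ μ.support.erase z, 2 ≤ μ y
    · obtain ⟨y0, hy0, hy02⟩ := hbig
      obtain ⟨T', hT1, hT2⟩ := Infinite.exists_superset_card_eq μ.support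
        (μ.support.card + (μ.support.erase z).card) (by omega)
      obtain ⟨T, hT⟩ : ∃ T, T = T' \ μ.support := ⟨_, rfl⟩
      have hTc : T.card = (μ.support.erase z).card := by
        rw [hT, Finset.card_sdiff_of_subset hT1, hT2]
        omega
      have hTd : ∀ t ∈ T, t ∉ μ.support := by
        intro t ht
        rw [hT] at ht
        exact (Finset.mem_sdiff.mp ht).2
      have hzT : z ∉ T := fun h => hTd z h hzs
      have hdT : (ν + ind T).degree + 1 = m := by
        rw [map_add, ind_degree, hTc, hνdeg]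
      have hne : NK v (ν + ind T) ≠ ⊥ := by
        intro hb
        have h4 := NK_finrank v (ν + ind T)
        rw [hb, finrank_bot] at h4
        omega
      obtain ⟨ω, hω, hω0⟩ := Submodule.exists_mem_ne_zero_of_ne_bot hne
      have hω1 : ω ∈ NK v ν := NK_mono (fun x => by rw [Finsupp.add_apply]; omega) hω
      have hω2 := hkill ω hω1
      have hzz : (ν + ind T) z = μ1 z := by
        rw [Finsupp.add_apply, ind_apply, if_neg hzT, add_zero, hνz]
      have hω3 : ω ∈ NK v (ν + ind T + Finsupp.single z 1) :=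
        mem_NK_add hω (by rw [hzz]; exact hω2)
      have hb : NK v (ν + ind T + Finsupp.single z 1) = ⊥ := by
        refine ih' _ (fun x => ?_) ?_ ?_
        · rw [Finsupp.add_apply]
          by_cases hxz : x = z
          · subst hxz
            rw [hzz, Finsupp.single_eq_same, ← hμ1z]
            exact hμN x
          · rw [Finsupp.single_eq_of_ne hxz, add_zero, Finsupp.add_apply, ind_apply]
            split_ifs with hxT
            · rw [hνt x (hTd x hxT)]
              exact hJ.one x
            · have h1 : ν x ≤ μ1 x := by rw [hν, Finsupp.add_apply]; omega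
              have h2 := hμ1le x
              have h3 := hμN x
              omega
        · rw [map_add, Finsupp.degree_single, hdT]
        · have hsub : insert z (insert y0 T) ⊆ (ν + ind T + Finsupp.single z 1).support := by
            intro x hx
            rw [Finsupp.mem_support_iff, Finsupp.add_apply, Finsupp.add_apply]
            rcases Finset.mem_insert.mp hx with rfl | hx
            · rw [Finsupp.single_eq_same]; omega
            rcases Finset.mem_insert.mp hx with rfl | hx
            · have h1 := hνy x hy0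
              have h2 := hμ1x x (Finset.ne_of_mem_erase hy0)
              omega
            · rw [ind_apply, if_pos hx]; omega
          have h1 := Finset.card_le_card hsub
          have hy0T : y0 ∉ T := fun h => hTd y0 h (Finset.mem_of_mem_erase hy0)
          have hz' : z ∉ insert y0 T := by
            intro h
            rcases Finset.mem_insert.mp h with h | h
            · exact Finset.ne_of_mem_erase hy0 h.symm
            · exact hzT h
          rw [Finset.card_insert_of_notMem hz', Finset.card_insert_of_notMem hy0T, hTc] at h1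
          have h2 := Finset.card_erase_add_one hzs
          omega
      rw [hb, Submodule.mem_bot] at hω3
      exact hω0 hω3
    · -- all other points are simple
      push Not at hbig
      have hkz : μ1 z < Nm z := by
        have := hμN z
        omega
      have hnot : v z (μ1 z) ∉ Submodule.span ℝ
          ((fun l : Fin (Nm z) => v z l) '' {l | (l : ℕ) < μ1 z}) :=
        (hJ.ind z).notMem_span_image (s := {l | (l : ℕ) < μ1 z}) (x := ⟨μ1 z, hkz⟩)
          (by simp)
      obtain ⟨κ, hκ1, hκ2⟩ := Submodule.exists_le_ker_of_notMem hnot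
      apply hκ1
      apply hkill
      intro x l hl
      by_cases hxz : x = z
      · subst hxz
        rw [hνz] at hl
        have : v x l ∈ Submodule.span ℝ
            ((fun l : Fin (Nm x) => v x l) '' {l | (l : ℕ) < μ1 x}) :=
          Submodule.subset_span ⟨⟨l, by omega⟩, hl, rfl⟩
        exact hκ2 this
      · exfalso
        by_cases hxs : x ∈ μ.support
        · have hx' : x ∈ μ.support.erase z := Finset.mem_erase.mpr ⟨hxz, hxs⟩
          have h1 := hbig x hx'
          have h2 := hνy x hx'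
          have h3 := hμ1x x hxz
          omega
        · rw [hνt x hxs] at hl
          omega
  -- (iv)
  obtain ⟨y, hy, μ2, h2, ξ, hξ, hξd⟩ := hgood
  have hyz : y ≠ z := Finset.ne_of_mem_erase hy
  have hys : y ∈ μ.support := Finset.mem_of_mem_erase hy
  have hμ2y : μ1 y = μ2 y + 1 := by rw [h2, Finsupp.add_apply, Finsupp.single_eq_same]
  have hμ2x : ∀ x, x ≠ y → μ1 x = μ2 x := by
    intro x hx
    rw [h2, Finsupp.add_apply, Finsupp.single_eq_of_ne hx, add_zero]
  have hξy : ξ (v y (μ2 y)) ≠ 0 := by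
    intro h0
    have h3 : ξ ∈ NK v μ1 := by rw [h2]; exact mem_NK_add hξ h0
    obtain ⟨c, hc⟩ := hone ξ h3
    apply hξd
    rw [hc, LinearMap.smul_apply, hφd, smul_zero]
  have hγc : Continuous γ := hγ.1
  have hcont : ∀ κ : (Fin m → ℝ) →ₗ[ℝ] ℝ, Continuous fun t => κ (γ t) := fun κ =>
    (LinearMap.continuous_of_finiteDimensional κ).comp hγc
  have hHne : ∀ w : ℝ, ∀ᶠ t in 𝓝[≠] w, φ (γ t) ≠ 0 := fun w =>
    (punct μ.support w).mono (fun t ht => hφt t ht)
  obtain ⟨l1, e1⟩ := quot_tendsto hJ φ ξ z (μ1 z) (by have := hμN z; omega)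
    (fun l hl => hξ z l (by rw [← hμ2x z (Ne.symm hyz)]; exact hl))
    (fun l hl => hφ z l (by omega)) hξd
  obtain ⟨l2, e2⟩ := quot_tendsto hJ φ ξ y (μ2 y)
    (by have := hμN y; have := hμ1x y hyz; omega)
    (fun l hl => hξ y l hl)
    (fun l hl => hφ y l (by rw [hμ1x y hyz]; omega)) hξy
  obtain ⟨ε, hε, t1, t2, ht12, ht1, ht2, q1, q2⟩ := TR.germ (hcont φ) (hcont ξ) (Ne.symm hyz)
    ((hHne z).and e1) ((hHne y).and e2) l1 l2 μ.support
  have hμ2t : ∀ x, x ∉ μ.support → μ2 x = 0 := by
    intro x hx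
    have h1 := hμ1t x hx
    rw [h2, Finsupp.add_apply] at h1
    omega
  have hb : NK v (μ2 + Finsupp.single t1 1 + Finsupp.single t2 1) = ⊥ := by
    refine ih' _ (fun x => ?_) ?_ ?_
    · rw [Finsupp.add_apply, Finsupp.add_apply]
      by_cases hx1 : x = t1
      · subst hx1
        rw [Finsupp.single_eq_same, Finsupp.single_eq_of_ne ht12, hμ2t x ht1]
        exact hJ.one x
      · by_cases hx2 : x = t2
        · subst hx2
          rw [Finsupp.single_eq_same, Finsupp.single_eq_of_ne hx1, hμ2t x ht2]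
          exact hJ.one x
        · rw [Finsupp.single_eq_of_ne hx1, Finsupp.single_eq_of_ne hx2]
          have h3 : μ2 x ≤ μ1 x := by rw [h2, Finsupp.add_apply]; omega
          have h4 := hμ1le x
          have h5 := hμN x
          omega
    · rw [map_add, map_add, Finsupp.degree_single, Finsupp.degree_single]
      have h5 : μ2.degree + 1 = μ1.degree := by
        rw [h2, map_add, Finsupp.degree_single]
      omega
    · have hsub : insert t1 (insert t2 (μ.support.erase y)) ⊆
          (μ2 + Finsupp.single t1 1 + Finsupp.single t2 1).support := by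
        intro x hx
        rw [Finsupp.mem_support_iff, Finsupp.add_apply, Finsupp.add_apply]
        rcases Finset.mem_insert.mp hx with rfl | hx
        · rw [Finsupp.single_eq_same]; omega
        rcases Finset.mem_insert.mp hx with rfl | hx
        · rw [Finsupp.single_eq_same]; omega
        · have h3 := hμ1s x (Finset.mem_of_mem_erase hx)
          have h4 := hμ2x x (Finset.ne_of_mem_erase hx)
          omega
      have h1 := Finset.card_le_card hsub
      have ht2' : t2 ∉ μ.support.erase y := fun h => ht2 (Finset.mem_of_mem_erase h)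
      have ht1' : t1 ∉ insert t2 (μ.support.erase y) := by
        intro h
        rcases Finset.mem_insert.mp h with h | h
        · exact ht12 h
        · exact ht1 (Finset.mem_of_mem_erase h)
      rw [Finset.card_insert_of_notMem ht1', Finset.card_insert_of_notMem ht2'] at h1
      have h3 := Finset.card_erase_add_one hys
      omega
  have hin : φ - ε • ξ ∈ NK v (μ2 + Finsupp.single t1 1 + Finsupp.single t2 1) := by
    refine mem_NK_add (mem_NK_add ?_ ?_) ?_
    · refine Submodule.sub_mem _ (NK_mono (fun x => ?_) hφ1) (Submodule.smul_mem _ _ hξ)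
      rw [h2, Finsupp.add_apply]; omega
    · rw [hμ2t t1 ht1, hJ.zero, LinearMap.sub_apply, LinearMap.smul_apply, smul_eq_mul, q1,
        sub_self]
    · rw [Finsupp.add_apply, hμ2t t2 ht2, Finsupp.single_eq_of_ne (Ne.symm ht12), add_zero,
        hJ.zero, LinearMap.sub_apply, LinearMap.smul_apply, smul_eq_mul, q2, sub_self]
  rw [hb, Submodule.mem_bot] at hin
  have h6 := LinearMap.congr_fun hin (v z (μ1 z))
  rw [LinearMap.sub_apply, LinearMap.smul_apply, smul_eq_mul, hφd, LinearMap.zero_apply,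
    zero_sub, neg_eq_zero] at h6
  rcases mul_eq_zero.mp h6 with h7 | h7
  · exact hε h7
  · exact hξd h7

theorem herm_gen {m : ℕ} {γ : ℝ → Fin m → ℝ} (hγ : TR.ConvexCurve m γ) {Nm : ℝ → ℕ}
    {v : ℝ → ℕ → Fin m → ℝ} (hJ : Jet m γ Nm v) (Z : Finset ℝ) (μ : ℝ → ℕ)
    (hμ1 : ∀ z ∈ Z, 1 ≤ μ z) (hμ2 : ∀ z ∈ Z, μ z ≤ Nm z) (hs : ∑ z ∈ Z, μ z = m)
    (φ : Fin m → ℝ) (hφ : ∀ z ∈ Z, ∀ l < μ z, φ ⬝ᵥ v z l = 0) : φ = 0 := by
  classical
  let μf : ℝ →₀ ℕ := Finsupp.onFinset Z (fun z => if z ∈ Z then μ z else 0) (by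
    intro z hz
    by_contra h
    exact hz (if_neg h))
  have hμf : ∀ z, μf z = if z ∈ Z then μ z else 0 := fun z => rfl
  have hsupp : μf.support = Z := by
    ext z
    rw [Finsupp.mem_support_iff, hμf]
    constructor
    · intro h
      by_contra hz
      exact h (if_neg hz)
    · intro hz
      rw [if_pos hz]
      have := hμ1 z hz
      omega
  have hdeg : μf.degree = m := by
    rw [Finsupp.degree_apply, hsupp, ← hs]
    exact Finset.sum_congr rfl (fun z hz => by rw [hμf, if_pos hz])
  have hle : ∀ z, μf z ≤ Nm z := by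
    intro z
    rw [hμf]
    split_ifs with h
    · exact hμ2 z h
    · omega
  have hb := herm_aux hγ hJ _ μf hle hdeg rfl
  let L : (Fin m → ℝ) →ₗ[ℝ] ℝ :=
    { toFun := fun x => φ ⬝ᵥ x
      map_add' := fun x y => dotProduct_add φ x y
      map_smul' := fun c x => dotProduct_smul c φ x }
  have hL : L ∈ NK v μf := by
    intro z l hl
    rw [hμf] at hl
    by_cases hz : z ∈ Z
    · rw [if_pos hz] at hl
      exact hφ z hz l hl
    · rw [if_neg hz] at hl
      omega
  rw [hb, Submodule.mem_bot] at hL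
  funext i
  have h1 := LinearMap.congr_fun hL (Pi.single i 1)
  have h2 : L (Pi.single i 1) = φ i := by
    show φ ⬝ᵥ Pi.single i 1 = φ i
    rw [dotProduct_single, mul_one]
  rw [← h2, h1]
  rfl

end TD
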