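import Pool.Agent.TR.Final

/-!
# TD M3 : the trivial case `m = 3`, `d = 2`

PROOF.  `osc 3 1 γ z = span {cxv (γ z)}`; `V ⊓ span {x} ≠ ⊥` iff `x ∈ V`; `γ (z 0)`, `γ (z 1)` are
independent (add a third parameter and use convexity), so `V = span {cxv (γ (z 0)), cxv (γ (z 1))}`
is the only solution (`dim V = 2`); it is real.
-/

set_option autoImplicit false

open Submodule

namespace TD

private lemma osc_one (γ : ℝ → Fin 3 → ℝ) (z : ℝ) :
    TR.osc 3 (3 - 2) γ z = span ℂ {TR.cxv (γ z)} := by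
  unfold TR.osc
  congr 1
  ext x
  simp only [Set.mem_range, Set.mem_singleton_iff]
  constructor
  · rintro ⟨j, rfl⟩
    have hj : (j : ℕ) = 0 := by
      have := j.2
      omega
    rw [hj, iteratedDeriv_zero]
  · rintro rfl
    exact ⟨⟨0, by norm_num⟩, by simp [iteratedDeriv_zero]⟩

theorem case_three {γ : ℝ → Fin 3 → ℝ} (hγ : TR.ConvexCurve 3 γ) (z : Fin 2 → ℝ)
    (hz : Function.Injective z) :
    (TR.Schubert 3 2 γ z).ncard = 1 ∧ ∀ V ∈ TR.Schubert 3 2 γ z, TR.IsRealSub V := by
  have h01 : z 0 ≠ z 1 := fun h => by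
    have := hz h
    exact absurd this (by decide)
  set c : ℝ := |z 0| + |z 1| + 1 with hc
  have hc0 : c ≠ z 0 := by
    have h1 := le_abs_self (z 0)
    have h2 := abs_nonneg (z 1)
    intro h
    linarith
  have hc1 : c ≠ z 1 := by
    have h1 := le_abs_self (z 1)
    have h2 := abs_nonneg (z 0)
    intro h
    linarith
  have hinj : Function.Injective (![z 0, z 1, c] : Fin 3 → ℝ) := by
    intro i j hij
    fin_cases i <;> fin_cases j <;> first
      | rfl
      | exact absurd hij h01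
      | exact absurd hij.symm h01
      | exact absurd hij hc0
      | exact absurd hij.symm hc0
      | exact absurd hij hc1
      | exact absurd hij.symm hc1
  have hli := hγ.2 _ hinj
  have hli2 : LinearIndependent ℝ (fun i : Fin 2 => γ (z i)) := by
    have h1 := hli.comp (Fin.castSucc : Fin 2 → Fin 3) (Fin.castSucc_injective 2)
    have h2 : ((fun i => γ ((![z 0, z 1, c] : Fin 3 → ℝ) i)) ∘ (Fin.castSucc : Fin 2 → Fin 3))
        = fun i : Fin 2 => γ (z i) := by
      funext i
      fin_cases i <;> rfl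
    rw [h2] at h1
    exact h1
  have hliC := TR.cxv_indep (fun i : Fin 2 => γ (z i)) hli2
  set V0 : Submodule ℂ (Fin 3 → ℂ) := span ℂ (Set.range fun i : Fin 2 => TR.cxv (γ (z i)))
    with hV0
  have hfin : Module.finrank ℂ V0 = 2 := by
    rw [hV0, finrank_span_eq_card hliC]
    simp
  have hmemV0 : ∀ i, TR.cxv (γ (z i)) ∈ V0 := fun i => subset_span ⟨i, rfl⟩
  have hset : TR.Schubert 3 2 γ z = {V0} := by
    ext V
    simp only [TR.Schubert, Set.mem_ofPred_eq, Set.mem_singleton_iff]
    constructor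
    · rintro ⟨hV, hmeet⟩
      have hmem : ∀ i, TR.cxv (γ (z i)) ∈ V := by
        intro i
        have h1 := hmeet i
        rw [osc_one, Submodule.ne_bot_iff] at h1
        obtain ⟨w, ⟨hw1, hw2⟩, hw0⟩ := h1
        obtain ⟨s, rfl⟩ := mem_span_singleton.1 hw2
        have hs : s ≠ 0 := by
          rintro rfl
          exact hw0 (zero_smul _ _)
        have h2 := V.smul_mem s⁻¹ hw1
        rwa [smul_smul, inv_mul_cancel₀ hs, one_smul] at h2
      have hle : V0 ≤ V := by
        rw [hV0, span_le]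
        rintro _ ⟨i, rfl⟩
        exact hmem i
      exact (Submodule.eq_of_le_of_finrank_eq hle (by rw [hfin, hV])).symm
    · rintro rfl
      refine ⟨hfin, fun i => ?_⟩
      rw [osc_one, Submodule.ne_bot_iff]
      exact ⟨TR.cxv (γ (z i)), ⟨hmemV0 i, mem_span_singleton_self _⟩, hliC.ne_zero i⟩
  rw [hset]
  refine ⟨Set.ncard_singleton _, ?_⟩
  rintro V rfl
  refine ⟨span ℝ (Set.range fun i : Fin 2 => γ (z i)), ?_⟩
  apply le_antisymm
  · rw [hV0, span_le]
    rintro _ ⟨i, rfl⟩
    exact subset_span ⟨γ (z i), subset_span ⟨i, rfl⟩, rfl⟩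
  · rw [span_le]
    rintro _ ⟨w, hw, rfl⟩
    refine Submodule.span_induction (p := fun w _ => TR.cxv w ∈ V0) ?_ ?_ ?_ ?_ hw
    · rintro _ ⟨i, rfl⟩
      exact hmemV0 i
    · have h0 : TR.cxv (0 : Fin 3 → ℝ) = 0 := by funext i; simp [TR.cxv]
      rw [h0]
      exact V0.zero_mem
    · intro x y _ _ hx hy
      rw [TR.cxv_add]
      exact V0.add_mem hx hy
    · intro r x _ hx
      rw [TR.cxv_smul]
      exact V0.smul_of_tower_mem r hx

end TD
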