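import Pool.Agent.TR.Basic

/-!
# TD PM : positive data give positive minors

`TR.cf m p j k i` (see Pool/Agent/TR/Basic.lean): `cf m p 0 k i = δ`,
`cf m p (j+1) k i = Σ_(l ∈ [k, m)) p (j+1) l * cf m p j l i`.

PROOF.  Induction on `m` (for all `p, j`); `m = 0` : the empty determinant is `1`; `m = 1` :
`cf 1 p j 0 0 > 0` (covered by the general step as well).
(1) Shift: with `p' j k = p (j0 + j) k` one has
`cf m p (j0 + j) k i = Σ_(l<m) cf m p' j k l * cf m p j0 l i` (induction on `j`); so the matrix of the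
rows `j r` is the product of the matrix `cf m p' (j r - j 0) 0 l` and of the upper triangular matrix
`cf m p (j 0) l i` with positive diagonal (`TR.cf_lt`, diagonal `∏ p`).  So we may assume `j 0 = 0`.
(2) The first row is then `(1, 0, ..., 0)`; the determinant is that of the rows `r ≥ 1` and the
columns `i ≥ 1`.
(3) Let `p^ j k = p j (k+1)` and `Π j = ∏_(t=1..j) p t 0 > 0`.  For `m ≥ 1`
`cf (m+1) p j 0 (i+1) = Σ_(s=1..j) (Π j / Π s) cf m p^ s 0 i`: induction on `j`, using
`cf (m+1) p (j+1) 0 i = p (j+1) 0 * cf (m+1) p j 0 i + cf (m+1) p (j+1) 1 i` and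
`cf (m+1) p j (k+1) (i+1) = cf m p^ j k i`.
(4) So the row `r ≥ 1`, divided by `Π (j r)`, is the partial sum `S (j r)`,
`S j = Σ_(s=1..j) (Π s)⁻¹ • (cf m p^ s 0 ·)`.  Subtract consecutive rows (row operations; the first
one from `S 0 = 0`): the determinant of the rows `S (j (r+1)) - S (j r)`, `r < m`, which is by
multilinearity the sum over all `s : Fin m → ℕ` with `j r < s r ≤ j (r+1)` (so `s` is strictly
increasing) of `∏ (Π (s r))⁻¹ * det (cf m p^ (s r) 0 i) > 0` (induction hypothesis); the sum is not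
empty.
-/

set_option autoImplicit false

namespace TD

/-- The shifted data. -/
def sh (p : ℕ → ℕ → ℝ) : ℕ → ℕ → ℝ := fun j k => p j (k + 1)

theorem sh_pos {p : ℕ → ℕ → ℝ} (hp : TR.Pos p) : TR.Pos (sh p) := fun j k => hp j (k + 1)

theorem cf_shift (m : ℕ) (p : ℕ → ℕ → ℝ) (j k i : ℕ) :
    TR.cf (m + 1) p j (k + 1) (i + 1) = TR.cf m (sh p) j k i := by
  induction j generalizing k with
  | zero => simp [TR.cf]
  | succ j ih =>
    simp only [TR.cf]
    rw [← Finset.sum_Ico_add' (fun l => p (j + 1) l * TR.cf (m + 1) p j l (i + 1)) k m 1]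
    refine Finset.sum_congr rfl fun l _ => ?_
    rw [ih]
    rfl

/-- The product of the first coefficients. -/
noncomputable def PP (p : ℕ → ℕ → ℝ) (j : ℕ) : ℝ := ∏ t ∈ Finset.range j, p (t + 1) 0

theorem PP_pos {p : ℕ → ℕ → ℝ} (hp : TR.Pos p) (j : ℕ) : 0 < PP p j :=
  Finset.prod_pos fun _ _ => hp _ _

theorem PP_succ (p : ℕ → ℕ → ℝ) (j : ℕ) : PP p (j + 1) = PP p j * p (j + 1) 0 :=
  Finset.prod_range_succ _ _

theorem cf_zero_zero (m : ℕ) (p : ℕ → ℕ → ℝ) (j : ℕ) : TR.cf (m + 1) p j 0 0 = PP p j := by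
  induction j with
  | zero => simp [TR.cf, PP]
  | succ j ih =>
    rw [TR.cf, Finset.sum_eq_sum_Ico_succ_bot (Nat.succ_pos m), ih, PP_succ,
      Finset.sum_eq_zero, add_zero, mul_comm]
    intro l hl
    rw [Finset.mem_Ico] at hl
    rw [TR.cf_lt p j (by omega : 0 < l), mul_zero]

theorem cf_zero_succ (m : ℕ) {p : ℕ → ℕ → ℝ} (hp : TR.Pos p) (j i : ℕ) :
    TR.cf (m + 1) p j 0 (i + 1) =
      PP p j * ∑ s ∈ Finset.range j, (PP p (s + 1))⁻¹ * TR.cf m (sh p) (s + 1) 0 i := by
  induction j with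
  | zero => simp [TR.cf]
  | succ j ih =>
    have h1 : TR.cf (m + 1) p (j + 1) 0 (i + 1) =
        p (j + 1) 0 * TR.cf (m + 1) p j 0 (i + 1) + TR.cf (m + 1) p (j + 1) (0 + 1) (i + 1) := by
      rw [TR.cf, Finset.sum_eq_sum_Ico_succ_bot (Nat.succ_pos m), TR.cf]
    rw [h1, ih, cf_shift, Finset.sum_range_succ, PP_succ]
    have h2 := (PP_pos hp j).ne'
    have h3 := (hp (j + 1) 0).ne'
    rw [mul_add, ← mul_assoc (PP p j * p (j + 1) 0) _ (TR.cf m (sh p) (j + 1) 0 i),
      mul_inv_cancel₀ (mul_ne_zero h2 h3)]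
    ring

theorem posmin {m : ℕ} {p : ℕ → ℕ → ℝ} (hp : TR.Pos p) {j : Fin m → ℕ} (hj : StrictMono j) :
    0 < Matrix.det (fun r i : Fin m => TR.cf m p (j r) 0 i) := by
  induction m generalizing p with
  | zero =>
    rw [Matrix.det_isEmpty]
    exact zero_lt_one
  | succ m ih =>
    let S : ℕ → ℕ → ℝ := fun a i =>
      ∑ s ∈ Finset.range a, (PP p (s + 1))⁻¹ * TR.cf m (sh p) (s + 1) 0 i
    let A : Matrix (Fin (m + 1)) (Fin (m + 1)) ℝ := Matrix.of fun r =>
      Fin.cons 1 fun i : Fin m => S (j r) i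
    have hA : (fun r i : Fin (m + 1) => TR.cf (m + 1) p (j r) 0 i) =
        Matrix.of fun r i => PP p (j r) * A r i := by
      funext r i
      refine Fin.cases ?_ (fun i => ?_) i
      · simp only [Matrix.of_apply, A, Fin.cons_zero, mul_one, Fin.val_zero]
        exact cf_zero_zero m p (j r)
      · simp only [Matrix.of_apply, A, Fin.cons_succ, Fin.val_succ]
        exact cf_zero_succ m hp (j r) i
    let B : Matrix (Fin (m + 1)) (Fin (m + 1)) ℝ := Matrix.of
      (Fin.cons (A 0) fun r : Fin m => fun i => A r.succ i - A r.castSucc i)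
    have hAB : A.det = B.det := by
      refine Matrix.det_eq_of_forall_row_eq_smul_add_pred (fun _ => 1) ?_ ?_
      · intro i
        simp [B]
      · intro r i
        simp [B]
    have hB0 : ∀ r : Fin m, B r.succ 0 = 0 := by
      intro r
      simp [B, A]
    have hB00 : B 0 0 = 1 := by simp [B, A]
    have hBdet : B.det = Matrix.det (fun r i : Fin m => S (j r.succ) i - S (j r.castSucc) i) := by
      rw [Matrix.det_succ_column_zero, Fin.sum_univ_succ]
      rw [Finset.sum_eq_zero fun r _ => by rw [hB0 r]; ring, hB00]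
      simp only [Fin.val_zero, pow_zero, one_mul, add_zero]
      congr 1
    have hdiff : ∀ r : Fin m, (fun i : Fin m => S (j r.succ) i - S (j r.castSucc) i) =
        ∑ s ∈ Finset.Ico (j r.castSucc) (j r.succ),
          fun i : Fin m => (PP p (s + 1))⁻¹ * TR.cf m (sh p) (s + 1) 0 i := by
      intro r
      funext i
      rw [Finset.sum_apply]
      exact (Finset.sum_Ico_eq_sub _ (hj (Fin.castSucc_lt_succ (i := r))).le).symm
    have hmul : Matrix.det (fun r i : Fin m => S (j r.succ) i - S (j r.castSucc) i) =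
        ∑ s ∈ Fintype.piFinset fun r : Fin m => Finset.Ico (j r.castSucc) (j r.succ),
          Matrix.det (fun r i : Fin m =>
            (PP p (s r + 1))⁻¹ * TR.cf m (sh p) (s r + 1) 0 i) := by
      have h := (Matrix.detRowAlternating (n := Fin m) (R := ℝ)).toMultilinearMap.map_sum_finset
        (fun (_ : Fin m) (s : ℕ) => fun i : Fin m =>
          (PP p (s + 1))⁻¹ * TR.cf m (sh p) (s + 1) 0 i)
        (fun r : Fin m => Finset.Ico (j r.castSucc) (j r.succ))
      have h2 : (fun r i : Fin m => S (j r.succ) i - S (j r.castSucc) i) =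
          fun r : Fin m => ∑ s ∈ Finset.Ico (j r.castSucc) (j r.succ),
            fun i : Fin m => (PP p (s + 1))⁻¹ * TR.cf m (sh p) (s + 1) 0 i := funext hdiff
      rw [h2]
      exact h
    rw [hA, Matrix.det_mul_column, hAB, hBdet, hmul]
    refine mul_pos (Finset.prod_pos fun r _ => PP_pos hp _) (Finset.sum_pos ?_ ?_)
    · intro s hs
      rw [Fintype.mem_piFinset] at hs
      have h1 : (fun r i : Fin m => (PP p (s r + 1))⁻¹ * TR.cf m (sh p) (s r + 1) 0 i) =
          Matrix.of fun r i => (PP p (s r + 1))⁻¹ *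
            (Matrix.of fun r i : Fin m => TR.cf m (sh p) (s r + 1) 0 i) r i := rfl
      rw [h1, Matrix.det_mul_column]
      refine mul_pos (Finset.prod_pos fun r _ => inv_pos.mpr (PP_pos hp _)) ?_
      refine ih (sh_pos hp) (j := fun r => s r + 1) ?_
      intro a b hab
      have ha := (Finset.mem_Ico.mp (hs a)).2
      have hb := (Finset.mem_Ico.mp (hs b)).1
      have hab' : a.succ ≤ b.castSucc := by
        rw [Fin.le_def, Fin.val_succ, Fin.val_castSucc]
        exact hab
      have := hj.monotone hab'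
      change s a + 1 < s b + 1
      omega
    · refine ⟨fun r => j r.castSucc, ?_⟩
      rw [Fintype.mem_piFinset]
      intro r
      rw [Finset.mem_Ico]
      exact ⟨le_rfl, hj (Fin.castSucc_lt_succ (i := r))⟩

end TD
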